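import Pool.Agent.TH232.Fhc.Per

set_option autoImplicit false
open Filter Topology

namespace Pool.Agent.TH232.Fhc

/-- periodisation -/
noncomputable def pz (x : Lb) (D : ℕ) : Lb :=
  BoundedContinuousFunction.ofNormedAddCommGroupDiscrete (fun j => x (j % D)) ‖x‖
    (fun _ => x.norm_coe_le_norm _)

theorem pz_apply (x : Lb) (D j : ℕ) : pz x D j = x (j % D) := rfl

theorem pz_per (x : Lb) (D j : ℕ) : pz x D (j + D) = pz x D j := by
  rw [pz_apply, pz_apply, Nat.add_mod_right]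

theorem pz_sum (x : Lb) (M D : ℕ) (hM : ∀ j, M ≤ j → x j = 0) (hMD : M ≤ D) (k : ℕ) :
    ∑ j ∈ Finset.range (D * (k + 1)), ‖pz x D j - x j‖ ≤ k * ∑ j ∈ Finset.range D, ‖x j‖ := by
  induction k with
  | zero =>
    simp only [zero_add, mul_one, Nat.cast_zero, zero_mul]
    refine le_of_eq (Finset.sum_eq_zero fun j hj => ?_)
    rw [Finset.mem_range] at hj
    rw [pz_apply, Nat.mod_eq_of_lt hj, sub_self, norm_zero]
  | succ k ih =>
    rw [mul_add D (k + 1) 1, mul_one, Finset.sum_range_add]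
    have : ∑ i ∈ Finset.range D, ‖pz x D (D * (k + 1) + i) - x (D * (k + 1) + i)‖
        = ∑ i ∈ Finset.range D, ‖x i‖ := by
      refine Finset.sum_congr rfl fun i hi => ?_
      rw [Finset.mem_range] at hi
      have h1 : D ≤ D * (k + 1) := Nat.le_mul_of_pos_right _ (by omega)
      rw [pz_apply, Nat.mul_add_mod, Nat.mod_eq_of_lt hi, hM (D * (k + 1) + i) (by omega), sub_zero]
    rw [this]
    push_cast
    linarith

theorem pz_close (x : Lb) (M D : ℕ) (hM : ∀ j, M ≤ j → x j = 0) (hMD : M ≤ D) (hD : 0 < D) :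
    ‖V (pz x D) - V x‖ ≤ (∑ j ∈ Finset.range M, ‖x j‖) / D := by
  have hC : ∑ j ∈ Finset.range D, ‖x j‖ = ∑ j ∈ Finset.range M, ‖x j‖ := by
    symm
    apply Finset.sum_subset (Finset.range_mono hMD)
    intro j _ hj
    rw [Finset.mem_range] at hj
    rw [hM j (by omega), norm_zero]
  have hC0 : 0 ≤ ∑ j ∈ Finset.range M, ‖x j‖ := Finset.sum_nonneg fun _ _ => norm_nonneg _
  have hD' : (0:ℝ) < D := by exact_mod_cast hD
  rw [← map_sub]
  refine V_norm_le _ _ (by positivity) fun l N hl hN => ?_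
  have hl' : (1:ℝ) ≤ l := by exact_mod_cast hl
  have hN' : (0:ℝ) ≤ N := Nat.cast_nonneg _
  have h1 := Nat.div_mul_le_self N D
  have h2 : N ≤ D * (N / D + 1) := (Nat.lt_mul_div_succ N hD).le
  have h3 := pz_sum x M D hM hMD (N / D)
  rw [hC] at h3
  have h4 : ‖S ((pz x D - x : Lb) : ℕ → ℂ) l N‖ ≤ ∑ j ∈ Finset.range N, ‖pz x D j - x j‖ :=
    S_le_sum _ _ _
  have h5 : ∑ j ∈ Finset.range N, ‖pz x D j - x j‖ ≤
      ∑ j ∈ Finset.range (D * (N / D + 1)), ‖pz x D j - x j‖ :=
    Finset.sum_le_sum_of_subset_of_nonneg (Finset.range_mono h2) (fun _ _ _ => norm_nonneg _)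
  have h6 : ((N / D : ℕ) : ℝ) ≤ N / D := Nat.cast_div_le
  set C := ∑ j ∈ Finset.range M, ‖x j‖ with hCd
  calc _ ≤ ((N / D : ℕ) : ℝ) * C := h4.trans (h5.trans h3)
    _ ≤ (N / D) * C := by gcongr
    _ = C / D * (1 * N) := by ring
    _ ≤ C / D * (l * N) := by gcongr

theorem T_per : Dense {x : X | ∃ n : ℕ, 0 < n ∧ (T ^ n) x = x} := by
  intro f
  rw [Metric.mem_closure_iff]
  intro ε hε
  obtain ⟨g, ⟨x, ⟨M, hM⟩, hgx⟩, hg⟩ := dense00.exists_dist_lt f (show 0 < ε / 2 by positivity)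
  set C := ∑ j ∈ Finset.range M, ‖x j‖ with hC
  have hC0 : 0 ≤ C := Finset.sum_nonneg fun _ _ => norm_nonneg _
  obtain ⟨D0, hD0⟩ := exists_nat_gt (C / (ε / 2))
  set D := D0 + M + 1 with hD
  have hper : ∀ j, pz x D (j + D) = pz x D j := pz_per x D
  have hDpos : 0 < D := by omega
  refine ⟨⟨V (pz x D), per_mem _ D hDpos hper⟩, ⟨D, hDpos, ?_⟩, ?_⟩
  · apply Subtype.ext
    rw [T_pow_coe]
    show (TE ^ D) (V (pz x D)) = V (pz x D)
    rw [TE_pow_V]
    congr 1
    ext j
    rw [sh_pow_apply, hper]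
  · have h1 := pz_close x M D hM (by omega) hDpos
    have h2 : C / D < ε / 2 := by
      have : (D0 : ℝ) ≤ D := by exact_mod_cast (by omega : D0 ≤ D)
      rw [div_lt_iff₀ (by positivity)] at hD0
      rw [div_lt_iff₀ (by positivity)]
      nlinarith
    have h3 : dist g (⟨V (pz x D), per_mem _ D hDpos hper⟩ : X) ≤ C / D := by
      rw [dist_comm]
      show dist (V (pz x D)) (g : E) ≤ _
      rw [← hgx, dist_eq_norm]
      exact h1
    calc dist f _ ≤ dist f g + dist g (⟨V (pz x D), per_mem _ D hDpos hper⟩ : X) := dist_triangle _ _ _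
      _ < ε := by linarith

/-- right shift -/
noncomputable def rs (x : Lb) (n : ℕ) : Lb :=
  BoundedContinuousFunction.ofNormedAddCommGroupDiscrete (fun j => if j < n then 0 else x (j - n)) ‖x‖
    (fun j => by
      split_ifs
      · simp
      · exact x.norm_coe_le_norm _)

theorem rs_apply (x : Lb) (n j : ℕ) : rs x n j = if j < n then 0 else x (j - n) := rfl

theorem rs_mem {x : Lb} (hx : x ∈ c00) (n : ℕ) : rs x n ∈ c00 := by
  obtain ⟨M, hM⟩ := hx
  exact ⟨M + n, fun j hj => by rw [rs_apply, if_neg (by omega), hM _ (by omega)]⟩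

theorem rs_norm (x : Lb) (M n : ℕ) (hM : ∀ j, M ≤ j → x j = 0) (hn : 0 < n) :
    ‖V (rs x n)‖ ≤ (∑ j ∈ Finset.range M, ‖x j‖) / n := by
  have hC0 : 0 ≤ ∑ j ∈ Finset.range M, ‖x j‖ := Finset.sum_nonneg fun _ _ => norm_nonneg _
  have hn' : (0:ℝ) < n := by exact_mod_cast hn
  refine V_norm_le _ _ (by positivity) fun l N hl hN => ?_
  have hl' : (1:ℝ) ≤ l := by exact_mod_cast hl
  by_cases hNn : N ≤ n
  · have : S (rs x n) l N = S (fun _ => 0) l N := by
      apply S_congr
      intro j hj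
      rw [rs_apply, if_pos (by omega)]
    rw [this, S_zero, norm_zero]
    positivity
  · obtain ⟨N', rfl⟩ := Nat.exists_eq_add_of_le (show n ≤ N by omega)
    rw [S_append]
    have h1 : S (rs x n) l n = S (fun _ => 0) l n := by
      apply S_congr
      intro j hj
      rw [rs_apply, if_pos (by omega)]
    have h2 : S (fun j => rs x n (n + j)) l N' = S (fun j => x j) l N' := by
      apply S_congr
      intro j hj
      rw [rs_apply, if_neg (by omega)]
      congr 1
      omega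
    rw [h1, h2, S_zero, zero_add, norm_mul, ζ_pow_norm, one_mul]
    have h3 : ‖S x l N'‖ ≤ ∑ j ∈ Finset.range M, ‖x j‖ := by
      refine (S_le_sum _ _ _).trans ?_
      rcases le_total N' M with h | h
      · exact Finset.sum_le_sum_of_subset_of_nonneg (Finset.range_mono h) (fun _ _ _ => norm_nonneg _)
      · refine le_of_eq (Finset.sum_subset (Finset.range_mono h) ?_).symm
        intro j _ hj
        rw [Finset.mem_range] at hj
        rw [hM j (by omega), norm_zero]
    refine h3.trans ?_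
    set C := ∑ j ∈ Finset.range M, ‖x j‖
    have h4 : (1:ℝ) ≤ (n + N' : ℕ) / n := by
      rw [le_div_iff₀ hn']
      push_cast
      have : (0:ℝ) ≤ N' := Nat.cast_nonneg _
      linarith
    calc C = C * 1 := by ring
      _ ≤ C * ((n + N' : ℕ) / n) := by gcongr
      _ = C / n * (1 * (n + N' : ℕ)) := by ring
      _ ≤ C / n * (l * (n + N' : ℕ)) := by gcongr

theorem T_mix (U W : Set X) (hU : IsOpen U) (hW : IsOpen W) (hUn : U.Nonempty) (hWn : W.Nonempty) :
    ∃ N : ℕ, ∀ n : ℕ, N ≤ n → ((⇑(T ^ n)) ⁻¹' W ∩ U).Nonempty := by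
  obtain ⟨a, ⟨x, ⟨M, hM⟩, hax⟩, haU⟩ := dense00.exists_mem_open hU hUn
  obtain ⟨b, ⟨y, ⟨M', hM'⟩, hby⟩, hbW⟩ := dense00.exists_mem_open hW hWn
  obtain ⟨r, hr, hball⟩ := Metric.isOpen_iff.1 hU a haU
  set C := ∑ j ∈ Finset.range M', ‖y j‖ with hC
  have hC0 : 0 ≤ C := Finset.sum_nonneg fun _ _ => norm_nonneg _
  obtain ⟨N0, hN0⟩ := exists_nat_gt (C / r)
  refine ⟨N0 + M + 1, fun n hn => ?_⟩
  have hyc : y ∈ c00 := ⟨M', hM'⟩
  set c : X := ⟨V (rs y n), V_mem_X (rs_mem hyc n)⟩ with hc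
  refine ⟨a + c, ?_, ?_⟩
  · show (T ^ n) (a + c) ∈ W
    have : (T ^ n) (a + c) = b := by
      rw [map_add]
      have h1 : (T ^ n) a = 0 := by
        apply Subtype.ext
        rw [T_pow_coe, ← hax, TE_pow_V]
        have : (sh ^ n) x = 0 := by
          ext j
          rw [sh_pow_apply, hM _ (by omega)]
          rfl
        rw [this, map_zero]
        rfl
      have h2 : (T ^ n) c = b := by
        apply Subtype.ext
        rw [T_pow_coe, ← hby]
        show (TE ^ n) (V (rs y n)) = V y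
        rw [TE_pow_V]
        congr 1
        ext j
        rw [sh_pow_apply, rs_apply, if_neg (by omega)]
        congr 1
        omega
      rw [h1, h2, zero_add]
    rw [this]
    exact hbW
  · apply hball
    rw [Metric.mem_ball, dist_eq_norm, add_sub_cancel_left]
    have h3 : ‖c‖ ≤ C / n := rs_norm y M' n hM' (by omega)
    refine lt_of_le_of_lt h3 ?_
    have : (N0 : ℝ) ≤ n := by exact_mod_cast (by omega : N0 ≤ n)
    have hn0 : (0:ℝ) < n := by exact_mod_cast (by omega : 0 < n)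
    rw [div_lt_iff₀ hr] at hN0
    rw [div_lt_iff₀ hn0]
    nlinarith

end Pool.Agent.TH232.Fhc
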