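import Pool.Agent.TH232.Fhc.Build

set_option autoImplicit false
open Filter Topology

namespace Pool.Agent.TH232.Fhc

/-- `n` is far from the blocks -/
def Safe (m L n : ℕ) : Prop := L ≤ ρ m n ∧ ρ m n + L ≤ 2 * m

instance (m L n : ℕ) : Decidable (Safe m L n) := by unfold Safe; infer_instance

theorem safe_small {m L n : ℕ} (_ : L ≤ m) (h : n + L ≤ m) (hL1 : 1 ≤ L) : Safe m L n := by
  unfold Safe ρ
  rw [Nat.mod_eq_of_lt (by omega)]
  omega

theorem bad_card (m L N : ℕ) (hL1 : 1 ≤ L) (hLm : 2 * L ≤ m) :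
    (((Finset.range N).filter (fun n => ¬ Safe m L n)).card : ℝ) ≤ 7 * L / m * N := by
  have hm : (0:ℝ) < m := by exact_mod_cast (by omega : 0 < m)
  by_cases hN : N + L ≤ m
  · have : (Finset.range N).filter (fun n => ¬ Safe m L n) = ∅ := by
      rw [Finset.filter_eq_empty_iff]
      intro n hn
      rw [Finset.mem_range] at hn
      exact not_not.2 (safe_small (by omega) (by omega) hL1)
    rw [this]
    simp
    positivity
  · have h1 : ((Finset.range N).filter (fun n => ¬ Safe m L n)).card ≤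
        (Finset.range ((N + m) / (2 * m) + 1) ×ˢ
          (Finset.range L ∪ Finset.Ico (2 * m + 1 - L) (2 * m))).card := by
      refine Finset.card_le_card_of_injOn (fun n => ((n + m) / (2 * m), (n + m) % (2 * m))) ?_ ?_
      · intro n hn
        rw [Finset.mem_coe, Finset.mem_filter, Finset.mem_range] at hn
        have hlt := ρ_lt (m := m) (by omega) n
        have h2 := hn.2
        unfold Safe ρ at h2
        unfold ρ at hlt
        rw [Finset.mem_coe, Finset.mem_product]
        refine ⟨?_, ?_⟩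
        · rw [Finset.mem_range]
          have : (n + m) / (2 * m) ≤ (N + m) / (2 * m) := Nat.div_le_div_right (by omega)
          simp only
          omega
        · simp only [Finset.mem_union, Finset.mem_range, Finset.mem_Ico]
          omega
      · intro a _ b _ hab
        simp only [Prod.mk.injEq] at hab
        have ha := Nat.div_add_mod (a + m) (2 * m)
        have hb := Nat.div_add_mod (b + m) (2 * m)
        rw [hab.1, hab.2] at ha
        omega
    have h2 : (Finset.range ((N + m) / (2 * m) + 1) ×ˢ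
          (Finset.range L ∪ Finset.Ico (2 * m + 1 - L) (2 * m))).card
          ≤ ((N + m) / (2 * m) + 1) * (2 * L) := by
      rw [Finset.card_product, Finset.card_range]
      refine Nat.mul_le_mul_left _ ((Finset.card_union_le _ _).trans ?_)
      rw [Finset.card_range, Nat.card_Ico]
      omega
    have h3 : (((N + m) / (2 * m) : ℕ) : ℝ) ≤ ((N : ℝ) + m) / (2 * m) := by
      have := @Nat.cast_div_le ℝ _ _ _ (N + m) (2 * m)
      push_cast at this
      exact this
    have h4 : (((Finset.range N).filter (fun n => ¬ Safe m L n)).card : ℝ) ≤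
        (((N : ℝ) + m) / (2 * m) + 1) * (2 * L) := by
      have h5 : (((Finset.range N).filter (fun n => ¬ Safe m L n)).card : ℝ) ≤
        ((((N + m) / (2 * m) + 1) * (2 * L) : ℕ) : ℝ) := by exact_mod_cast h1.trans h2
      refine h5.trans ?_
      rw [Nat.cast_mul, Nat.cast_mul, Nat.cast_add, Nat.cast_one, Nat.cast_two]
      apply mul_le_mul_of_nonneg_right _ (by positivity)
      linarith
    refine h4.trans ?_
    have h6 : (m : ℝ) ≤ 2 * N := by
      have : m ≤ 2 * N := by omega
      exact_mod_cast this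
    have hL0 : (0:ℝ) < L := by exact_mod_cast hL1
    rw [div_mul_eq_mul_div, le_div_iff₀ hm]
    have e : (((N : ℝ) + m) / (2 * m) + 1) * (2 * L) * m = (N + 3 * m) * L := by
      have : (m:ℝ) ≠ 0 := hm.ne'
      rw [show (((N : ℝ) + m) / (2 * m) + 1) * (2 * L) * m
        = ((N : ℝ) + m) * L * (m / m) + 2 * L * m by field_simp, div_self this]
      ring
    rw [e]
    nlinarith

theorem good_card (m N : ℕ) (hm : 0 < m) :
    (N : ℝ) / (2 * m) - 1 ≤ (((Finset.range N).filter (fun n => ρ m n = 0)).card : ℝ) := by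
  have h1 : (Finset.range (N / (2 * m))).card ≤ ((Finset.range N).filter (fun n => ρ m n = 0)).card := by
    refine Finset.card_le_card_of_injOn (fun t => 2 * m * t + m) ?_ ?_
    · intro t ht
      rw [Finset.mem_coe, Finset.mem_range] at ht
      rw [Finset.mem_coe, Finset.mem_filter, Finset.mem_range]
      refine ⟨?_, ?_⟩
      · have h2 : 2 * m * (t + 1) ≤ N := by
          calc 2 * m * (t + 1) ≤ 2 * m * (N / (2 * m)) := Nat.mul_le_mul_left _ ht
            _ ≤ N := Nat.mul_div_le _ _
        simp only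
        rw [mul_add] at h2
        omega
      · unfold ρ
        rw [show 2 * m * t + m + m = 2 * m * (t + 1) by ring, Nat.mul_mod_right]
    · intro a _ b _ hab
      simp only at hab
      have : 2 * m * a = 2 * m * b := by omega
      exact Nat.eq_of_mul_eq_mul_left (by omega) this
  rw [Finset.card_range] at h1
  have h2 : (N : ℝ) / (2 * m) - 1 ≤ ((N / (2 * m) : ℕ) : ℝ) := by
    have h3 := Nat.lt_div_mul_add (a := N) (b := 2 * m) (by omega)
    have h4 : (N : ℝ) < ((N / (2 * m) : ℕ) : ℝ) * (2 * m) + 2 * m := by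
      exact_mod_cast h3
    have hm' : (0:ℝ) < 2 * m := by positivity
    rw [sub_le_iff_le_add, div_le_iff₀ hm']
    nlinarith
  refine h2.trans ?_
  exact_mod_cast h1

section
variable (v : ℕ → c00)

theorem D_mono (q p : ℕ) (h : q < p) : 2 * mm v q ≤ (st v p).D := by
  induction p with
  | zero => omega
  | succ p ih =>
    rcases Nat.lt_or_ge q p with h1 | h1
    · have h2 := ih h1
      have h3 := (good v p).hdvd
      have h4 := Nat.le_of_dvd (mm_pos v p) h3
      rw [st_D]
      omega
    · have : q = p := by omega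
      subst this
      rw [st_D]

theorem bad_card' (q p N : ℕ) (h : q < p) :
    (((Finset.range N).filter (fun n => ¬ Safe (mm v p) (LL v p) n)).card : ℝ) ≤
      (1 / 2) ^ p * (N / (10 * mm v q)) := by
  have g := good v p
  have hb := g.hbig
  have hD := D_mono v q p h
  have hL := g.hL
  have hm0 : 0 < mm v q := mm_pos v q
  have hp1 : 1 ≤ 2 ^ p := Nat.one_le_two_pow
  have h1 : 40 * LL v p * 2 ^ p * (2 * mm v q) ≤ mm v p :=
    (Nat.mul_le_mul_left _ hD).trans hb
  have h2 : 2 * LL v p ≤ mm v p := by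
    refine le_trans ?_ h1
    have : LL v p * 1 ≤ LL v p * 2 ^ p := Nat.mul_le_mul_left _ hp1
    nlinarith
  refine (bad_card _ _ N hL h2).trans ?_
  have h3 : (40 * LL v p * 2 ^ p * (2 * mm v q) : ℝ) ≤ mm v p := by exact_mod_cast h1
  have hmp : (0:ℝ) < mm v p := by exact_mod_cast mm_pos v p
  have hmq : (0:ℝ) < mm v q := by exact_mod_cast hm0
  have hL0 : (0:ℝ) < LL v p := by exact_mod_cast hL
  have h4 : (7 * LL v p / mm v p : ℝ) ≤ (1 / 2) ^ p * (1 / (10 * mm v q)) := by
    rw [div_le_iff₀ hmp, one_div_pow]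
    have h5 : (0:ℝ) < 2 ^ p := by positivity
    have h6 : (1 / 2 ^ p * (1 / (10 * (mm v q : ℝ)))) * (40 * LL v p * 2 ^ p * (2 * mm v q))
        = 8 * LL v p := by
      field_simp
      norm_num
    have h7 : (0:ℝ) ≤ 1 / 2 ^ p * (1 / (10 * (mm v q : ℝ))) := by positivity
    have h8 := mul_le_mul_of_nonneg_left h3 h7
    rw [h6] at h8
    linarith
  calc (7 * LL v p / mm v p : ℝ) * N ≤ (1 / 2) ^ p * (1 / (10 * mm v q)) * N := by gcongr
    _ = _ := by ring

open Classical in
theorem density (q N : ℕ) (hN : 8 * mm v q ≤ N) :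
    1 / (4 * mm v q : ℝ) * N ≤
      (((Finset.range N).filter (fun n => ρ (mm v q) n = 0 ∧
        ∀ p, q < p → Safe (mm v p) (LL v p) n)).card : ℝ) := by
  have hm0 : 0 < mm v q := mm_pos v q
  have hmq : (0:ℝ) < mm v q := by exact_mod_cast hm0
  have h1 : (Finset.range N).filter (fun n => ρ (mm v q) n = 0) ⊆
      ((Finset.range N).filter (fun n => ρ (mm v q) n = 0 ∧
        ∀ p, q < p → Safe (mm v p) (LL v p) n)) ∪
      (Finset.Ioc q N).biUnion
        (fun p => (Finset.range N).filter (fun n => ¬ Safe (mm v p) (LL v p) n)) := by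
    intro n hn
    rw [Finset.mem_filter, Finset.mem_range] at hn
    rw [Finset.mem_union]
    by_cases h : ∀ p, q < p → Safe (mm v p) (LL v p) n
    · left
      rw [Finset.mem_filter, Finset.mem_range]
      exact ⟨hn.1, hn.2, h⟩
    · right
      push Not at h
      obtain ⟨p, hqp, hp⟩ := h
      rw [Finset.mem_biUnion]
      refine ⟨p, ?_, ?_⟩
      · rw [Finset.mem_Ioc]
        refine ⟨hqp, ?_⟩
        by_contra hc
        push Not at hc
        apply hp
        have g := good v p
        have := g.hp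
        exact safe_small g.hLm (by omega) g.hL
      · rw [Finset.mem_filter, Finset.mem_range]
        exact ⟨hn.1, hp⟩
  have h2 := (Finset.card_le_card h1).trans ((Finset.card_union_le _ _).trans
    (Nat.add_le_add_left Finset.card_biUnion_le _))
  have h3 : (((Finset.range N).filter (fun n => ρ (mm v q) n = 0)).card : ℝ) ≤
      (((Finset.range N).filter (fun n => ρ (mm v q) n = 0 ∧
        ∀ p, q < p → Safe (mm v p) (LL v p) n)).card : ℝ) +
      ∑ p ∈ Finset.Ioc q N,
        (((Finset.range N).filter (fun n => ¬ Safe (mm v p) (LL v p) n)).card : ℝ) := by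
    exact_mod_cast h2
  have h4 : ∑ p ∈ Finset.Ioc q N,
        (((Finset.range N).filter (fun n => ¬ Safe (mm v p) (LL v p) n)).card : ℝ)
        ≤ (N / (10 * mm v q)) := by
    calc _ ≤ ∑ p ∈ Finset.Ioc q N, (1 / 2 : ℝ) ^ p * (N / (10 * mm v q)) :=
          Finset.sum_le_sum fun p hp => bad_card' v q p N (Finset.mem_Ioc.1 hp).1
      _ = (∑ p ∈ Finset.Ioc q N, (1 / 2 : ℝ) ^ p) * (N / (10 * mm v q)) := by rw [Finset.sum_mul]
      _ ≤ 1 * (N / (10 * mm v q)) := by
          apply mul_le_mul_of_nonneg_right _ (by positivity)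
          have h5 : ∑ p ∈ Finset.Ioc q N, (1 / 2 : ℝ) ^ p ≤ ∑ p ∈ Finset.Ioc 0 N, (1 / 2 : ℝ) ^ p :=
            Finset.sum_le_sum_of_subset_of_nonneg (Finset.Ioc_subset_Ioc_left (Nat.zero_le _))
              (fun _ _ _ => by positivity)
          refine h5.trans ?_
          have h6 : ∀ N : ℕ, ∑ p ∈ Finset.Ioc 0 N, (1 / 2 : ℝ) ^ p = 1 - (1 / 2) ^ N := by
            intro N
            induction N with
            | zero => simp
            | succ N ih =>
              rw [Finset.sum_Ioc_succ_top (Nat.zero_le _), ih, pow_succ]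
              ring
          rw [h6]
          have : (0:ℝ) < (1 / 2) ^ N := by positivity
          linarith
      _ = _ := one_mul _
  have h5 := good_card (mm v q) N hm0
  have h6 : (8 * mm v q : ℝ) ≤ N := by exact_mod_cast hN
  have h7 : (8:ℝ) ≤ N / mm v q := by rw [le_div_iff₀ hmq]; exact h6
  have e1 : (N : ℝ) / (2 * mm v q) = (N / mm v q) / 2 := by field_simp
  have e2 : (N : ℝ) / (10 * mm v q) = (N / mm v q) / 10 := by field_simp
  have e3 : 1 / (4 * mm v q : ℝ) * N = (N / mm v q) / 4 := by field_simp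
  rw [e3]
  rw [e1] at h5
  rw [e2] at h4
  linarith

end

/-- the targets -/
theorem targets : ∃ v : ℕ → c00, ∀ U : Set X, IsOpen U → U.Nonempty →
    ∃ q : ℕ, Metric.ball (tX v q) (5 * (1 / 2 : ℝ) ^ q) ⊆ U := by
  obtain ⟨d, hd⟩ := TopologicalSpace.exists_dense_seq X
  have h1 : ∀ q : ℕ, ∃ w : c00, dist (d (Nat.unpair q).1) (⟨V w, V_mem_X w.2⟩ : X)
      < (1 / 2 : ℝ) ^ (Nat.unpair q).2 := by
    intro q
    obtain ⟨f, ⟨x, hx, hfx⟩, hf⟩ := dense00.exists_dist_lt (d (Nat.unpair q).1)
      (show (0:ℝ) < (1 / 2 : ℝ) ^ (Nat.unpair q).2 by positivity)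
    refine ⟨⟨x, hx⟩, ?_⟩
    have : (⟨V x, V_mem_X hx⟩ : X) = f := Subtype.ext hfx
    rw [this]
    exact hf
  choose v hv using h1
  refine ⟨v, fun U hU hne => ?_⟩
  obtain ⟨u, hu⟩ := hne
  obtain ⟨r, hr, hball⟩ := Metric.isOpen_iff.1 hU u hu
  obtain ⟨i, hi⟩ := hd.exists_mem_open Metric.isOpen_ball ⟨u, Metric.mem_ball_self (show 0 < r / 4 by positivity)⟩
  obtain ⟨k, hk⟩ := exists_pow_lt_of_lt_one (show 0 < r / 20 by positivity) (show (1:ℝ) / 2 < 1 by norm_num)
  refine ⟨Nat.pair i k, fun f hf => hball ?_⟩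
  have h2 := hv (Nat.pair i k)
  rw [Nat.unpair_pair] at h2
  simp only at h2
  rw [Metric.mem_ball] at hf hi ⊢
  have h3 : (1 / 2 : ℝ) ^ (Nat.pair i k) ≤ (1 / 2) ^ k :=
    pow_le_pow_of_le_one (by norm_num) (by norm_num) (Nat.right_le_pair i k)
  have h4 : dist (tX v (Nat.pair i k)) (d i) < (1 / 2) ^ k := by
    rw [dist_comm]; exact h2
  calc dist f u ≤ dist f (tX v (Nat.pair i k)) + dist (tX v (Nat.pair i k)) (d i) + dist (d i) u :=
        dist_triangle4 _ _ _ _
    _ < r := by linarith

/-- `T` is frequently hypercyclic -/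
theorem T_fhc : ∃ x : X, ∀ U : Set X, IsOpen U → U.Nonempty →
    ∃ δ : ℝ, 0 < δ ∧ ∃ N₀ : ℕ, ∀ N : ℕ, N₀ ≤ N →
      δ * (N : ℝ) ≤ (Nat.card {n : ℕ // n < N ∧ (T ^ n) x ∈ U} : ℝ) := by
  classical
  obtain ⟨v, hv⟩ := targets
  refine ⟨fx v, fun U hU hne => ?_⟩
  obtain ⟨q, hq⟩ := hv U hU hne
  have hm0 : 0 < mm v q := mm_pos v q
  refine ⟨1 / (4 * mm v q : ℝ), by positivity, 8 * mm v q, fun N hN => ?_⟩
  refine (density v q N hN).trans ?_
  have h1 : Nat.card {n : ℕ // n < N ∧ (T ^ n) (fx v) ∈ U}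
      = ((Finset.range N).filter (fun n => (T ^ n) (fx v) ∈ U)).card := by
    apply Nat.subtype_card
    intro n
    rw [Finset.mem_filter, Finset.mem_range]
  rw [h1]
  have h2 : (Finset.range N).filter (fun n => ρ (mm v q) n = 0 ∧
        ∀ p, q < p → Safe (mm v p) (LL v p) n) ⊆
      (Finset.range N).filter (fun n => (T ^ n) (fx v) ∈ U) := by
    intro n hn
    rw [Finset.mem_filter] at hn ⊢
    refine ⟨hn.1, hq ?_⟩
    rw [Metric.mem_ball, dist_eq_norm]
    refine lt_of_le_of_lt (visit v q n hn.2.1 hn.2.2) ?_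
    have : (0:ℝ) < (1 / 2) ^ q := by positivity
    linarith
  exact_mod_cast Finset.card_le_card h2

end Pool.Agent.TH232.Fhc
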