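import Pool.Agent.TH232.Fhc.Space

set_option autoImplicit false
open Filter Topology

namespace Pool.Agent.TH232.Fhc

theorem sub4 (t : Finset ℕ) (z : ℕ → ℂ) (δ : ℝ) (h : ∀ t' ⊆ t, ‖∑ n ∈ t', z n‖ ≤ δ) :
    ∑ n ∈ t, ‖z n‖ ≤ 4 * δ := by
  have key : ∀ φ : ℂ →ₗ[ℝ] ℝ, (∀ w, |φ w| ≤ ‖w‖) → ∑ n ∈ t, |φ (z n)| ≤ 2 * δ := by
    intro φ hφ
    have h1 := h (t.filter fun n => 0 ≤ φ (z n)) (Finset.filter_subset _ _)
    have h2 := h (t.filter fun n => ¬ 0 ≤ φ (z n)) (Finset.filter_subset _ _)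
    rw [← Finset.sum_filter_add_sum_filter_not t (fun n => 0 ≤ φ (z n)) (fun n => |φ (z n)|)]
    have e1 : ∑ n ∈ t.filter (fun n => 0 ≤ φ (z n)), |φ (z n)|
        = φ (∑ n ∈ t.filter (fun n => 0 ≤ φ (z n)), z n) := by
      rw [map_sum]
      refine Finset.sum_congr rfl fun n hn => ?_
      rw [Finset.mem_filter] at hn
      exact abs_of_nonneg hn.2
    have e2 : ∑ n ∈ t.filter (fun n => ¬ 0 ≤ φ (z n)), |φ (z n)|
        = - φ (∑ n ∈ t.filter (fun n => ¬ 0 ≤ φ (z n)), z n) := by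
      rw [map_sum, ← Finset.sum_neg_distrib]
      refine Finset.sum_congr rfl fun n hn => ?_
      rw [Finset.mem_filter] at hn
      exact abs_of_nonpos (not_le.1 hn.2).le
    rw [e1, e2]
    have h3 := (le_abs_self _).trans ((hφ (∑ n ∈ t.filter (fun n => 0 ≤ φ (z n)), z n)).trans h1)
    have h4 := (neg_le_abs _).trans ((hφ (∑ n ∈ t.filter (fun n => ¬ 0 ≤ φ (z n)), z n)).trans h2)
    linarith
  have h1 := key Complex.reLm Complex.abs_re_le_norm
  have h2 := key Complex.imLm Complex.abs_im_le_norm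
  calc ∑ n ∈ t, ‖z n‖ ≤ ∑ n ∈ t, (|(z n).re| + |(z n).im|) :=
        Finset.sum_le_sum fun n _ => Complex.norm_le_abs_re_add_abs_im _
    _ = ∑ n ∈ t, |(z n).re| + ∑ n ∈ t, |(z n).im| := Finset.sum_add_distrib
    _ ≤ 2 * δ + 2 * δ := add_le_add h1 h2
    _ = 4 * δ := by ring

theorem avg (a w : ℕ → ℂ) (ha : Summable fun i => ‖a i‖) (hw : ∀ i, ‖w i‖ = 1) :
    Tendsto (fun Λ : ℕ => (Λ : ℂ)⁻¹ * ∑ l ∈ Finset.range Λ, ∑' i, a i * w i ^ (l + 1)) atTop
      (𝓝 (∑' i, if w i = 1 then a i else 0)) := by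
  have hs : ∀ l : ℕ, Summable fun i => a i * w i ^ (l + 1) := by
    intro l
    refine Summable.of_norm (ha.congr fun i => ?_)
    rw [norm_mul, norm_pow, hw, one_pow, mul_one]
  have e1 : ∀ Λ : ℕ, (Λ : ℂ)⁻¹ * ∑ l ∈ Finset.range Λ, ∑' i, a i * w i ^ (l + 1)
      = ∑' i, a i * ((Λ : ℂ)⁻¹ * ∑ l ∈ Finset.range Λ, w i ^ (l + 1)) := by
    intro Λ
    rw [← Summable.tsum_finsetSum (fun l _ => hs l), ← tsum_mul_left]
    refine tsum_congr fun i => ?_
    rw [Finset.mul_sum, Finset.mul_sum, Finset.mul_sum]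
    refine Finset.sum_congr rfl fun l _ => ?_
    ring
  simp only [e1]
  refine tendsto_tsum_of_dominated_convergence (bound := fun i => ‖a i‖) ha ?_ ?_
  · intro i
    split_ifs with h
    · rw [h]
      have : Tendsto (fun Λ : ℕ => a i * ((Λ : ℂ)⁻¹ * ∑ l ∈ Finset.range Λ, (1 : ℂ) ^ (l + 1))) atTop
          (𝓝 (a i * 1)) := by
        apply Tendsto.const_mul
        apply tendsto_const_nhds.congr'
        filter_upwards [eventually_gt_atTop 0] with Λ hΛ
        have : (Λ : ℂ) ≠ 0 := Nat.cast_ne_zero.2 (by omega)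
        simp [this]
      rwa [mul_one] at this
    · rw [← mul_zero (a i)]
      apply Tendsto.const_mul
      have hne : w i - 1 ≠ 0 := sub_ne_zero.2 h
      have hpos : 0 < ‖w i - 1‖ := norm_pos_iff.2 hne
      have hb : ∀ Λ : ℕ, ‖(Λ : ℂ)⁻¹ * ∑ l ∈ Finset.range Λ, w i ^ (l + 1)‖ ≤
          (2 / ‖w i - 1‖) * (Λ : ℝ)⁻¹ := by
        intro Λ
        have e2 : ∑ l ∈ Finset.range Λ, w i ^ (l + 1) = w i * ((w i ^ Λ - 1) / (w i - 1)) := by
          rw [← geom_sum_eq h, Finset.mul_sum]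
          refine Finset.sum_congr rfl fun l _ => ?_
          rw [pow_succ, mul_comm]
        rw [e2, norm_mul, norm_mul, norm_div, hw, one_mul, norm_inv, Complex.norm_natCast, mul_comm]
        apply mul_le_mul_of_nonneg_right _ (by positivity)
        apply div_le_div_of_nonneg_right _ hpos.le
        refine (norm_sub_le _ _).trans ?_
        rw [norm_pow, hw, one_pow, norm_one]
        norm_num
      refine squeeze_zero_norm hb ?_
      rw [← mul_zero (2 / ‖w i - 1‖)]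
      exact (tendsto_inv_atTop_zero.comp tendsto_natCast_atTop_atTop).const_mul _
  · refine Eventually.of_forall fun Λ i => ?_
    rw [norm_mul]
    refine mul_le_of_le_one_right (norm_nonneg _) ?_
    rw [norm_mul, norm_inv, Complex.norm_natCast]
    have h1 : ‖∑ l ∈ Finset.range Λ, w i ^ (l + 1)‖ ≤ Λ := by
      refine (norm_sum_le _ _).trans ?_
      refine (Finset.sum_le_sum (g := fun _ => (1:ℝ)) fun l _ => ?_).trans ?_
      · rw [norm_pow, hw, one_pow]
      · simp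
    rcases Nat.eq_zero_or_pos Λ with h | h
    · subst h; simp
    · have h2 : (0:ℝ) < Λ := by exact_mod_cast h
      calc (Λ : ℝ)⁻¹ * _ ≤ (Λ : ℝ)⁻¹ * Λ := by gcongr
        _ = 1 := inv_mul_cancel₀ h2.ne'

/-- the relation between the coordinates of a point and those of its backward orbit -/
theorem coords {X₀ : Set X} {R : X → X} (h1 : ∀ x ∈ X₀, R x ∈ X₀) (h2 : ∀ x ∈ X₀, T (R x) = x)
    {x : X} (hx : x ∈ X₀) (n : ℕ) :
    (∀ j, j ≤ n → (T ^ j) (R^[n] x) = R^[n - j] x) ∧ (∀ j, (T ^ (n + j)) (R^[n] x) = (T ^ j) x) := by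
  have hmem : ∀ n, R^[n] x ∈ X₀ := by
    intro n
    induction n with
    | zero => exact hx
    | succ n ih => rw [Function.iterate_succ_apply']; exact h1 _ ih
  have ha : ∀ n j, j ≤ n → (T ^ j) (R^[n] x) = R^[n - j] x := by
    intro n j
    induction j generalizing n with
    | zero => intro _; rfl
    | succ j ih =>
      intro hj
      obtain ⟨n', rfl⟩ : ∃ n', n = n' + 1 := ⟨n - 1, by omega⟩
      rw [pow_succ]
      show (T ^ j) (T (R^[n' + 1] x)) = _
      rw [Function.iterate_succ_apply', h2 _ (hmem n'), ih n' (by omega),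
        show n' + 1 - (j + 1) = n' - j by omega]
  refine ⟨ha n, fun j => ?_⟩
  rw [add_comm, pow_add]
  show (T ^ j) ((T ^ n) (R^[n] x)) = _
  rw [ha n n le_rfl, Nat.sub_self]
  rfl

theorem fail : ¬ ∃ X₀ : Set X, Dense X₀ ∧ ∃ R : X → X, (∀ x ∈ X₀, R x ∈ X₀) ∧
        ∀ x ∈ X₀, Summable (fun n : ℕ => (T ^ n) x) ∧
          Summable (fun n : ℕ => R^[n] x) ∧ T (R x) = x := by
  rintro ⟨X₀, hd, R, hR, hX⟩
  -- a point with nonzero first coordinate
  have hun : un 0 ∈ c00 := ⟨1, fun j hj => by rw [un_apply, if_neg (by omega)]⟩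
  have hopen : IsOpen {f : X | e0 f ≠ 0} := isOpen_ne_fun e0.continuous continuous_const
  obtain ⟨x, hx, hx0⟩ := hd.exists_mem_open hopen ⟨⟨V (un 0), V_mem_X hun⟩, by
    show (V (un 0)) (0, 0) ≠ 0
    rw [V_apply]
    simp [pre, S, un_apply]⟩
  simp only [Set.mem_ofPred_eq] at hx0
  obtain ⟨hs1, hs2, -⟩ := hX x hx
  set p : ℕ → ℂ := fun i => e0 ((T ^ i) x) with hp
  set q : ℕ → ℂ := fun i => e0 (R^[i + 1] x) with hq
  have hps : Summable fun i => ‖p i‖ := (hs1.map e0 e0.continuous).norm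
  have hqs : Summable fun i => ‖q i‖ :=
    ((summable_nat_add_iff 1).2 (hs2.map e0 e0.continuous)).norm
  -- the main identity
  have main : ∀ l : ℕ, (∑' i, p i * (ζ ^ i) ^ (l + 1)) + ∑' i, q i * ((ζ ^ (i + 1))⁻¹) ^ (l + 1) = 0 := by
    intro l
    set P : ℕ → ℂ := fun k => ∑ i ∈ Finset.range (k + 1), p i * (ζ ^ i) ^ (l + 1) with hP
    set Q : ℕ → ℂ := fun k => ∑ i ∈ Finset.range k, q i * ((ζ ^ (i + 1))⁻¹) ^ (l + 1) with hQ
    have hps' : Summable fun i => p i * (ζ ^ i) ^ (l + 1) := by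
      refine Summable.of_norm (hps.congr fun i => ?_)
      rw [norm_mul, norm_pow, ζ_pow_norm, one_pow, mul_one]
    have hqs' : Summable fun i => q i * ((ζ ^ (i + 1))⁻¹) ^ (l + 1) := by
      refine Summable.of_norm (hqs.congr fun i => ?_)
      rw [norm_mul, norm_pow, norm_inv, ζ_pow_norm, inv_one, one_pow, mul_one]
    have hPt : Tendsto P atTop (𝓝 (∑' i, p i * (ζ ^ i) ^ (l + 1))) :=
      (hps'.hasSum.tendsto_sum_nat).comp (tendsto_add_atTop_nat 1)
    have hQt : Tendsto Q atTop (𝓝 (∑' i, q i * ((ζ ^ (i + 1))⁻¹) ^ (l + 1))) :=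
      hqs'.hasSum.tendsto_sum_nat
    -- coordinates of the backward orbit
    have hG : ∀ N n, n ≤ N → (R^[n] x : E) (N, l) * (((l : ℂ) + 1) * ((N : ℂ) + 1)) * (ζ ^ (n * (l + 1)))⁻¹
        = Q n + P (N - n) := by
      intro N n hn
      rw [X_coord]
      obtain ⟨k, rfl⟩ := Nat.exists_eq_add_of_le hn
      obtain ⟨c1, c2⟩ := coords hR (fun x hx => (hX x hx).2.2) hx n
      unfold S
      rw [add_assoc n k 1, Finset.sum_range_add, add_mul, Nat.add_sub_cancel_left]
      have hz : ζ ^ (n * (l + 1)) ≠ 0 := pow_ne_zero _ ζ_ne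
      congr 1
      · rw [Finset.sum_mul, ← Finset.sum_range_reflect]
        simp only [hQ]
        refine Finset.sum_congr rfl fun i hi => ?_
        rw [Finset.mem_range] at hi
        have e1 : (T ^ (n - 1 - i)) (R^[n] x) = R^[i + 1] x := by
          rw [c1 _ (by omega)]
          congr 1
          omega
        rw [e1]
        have e2 : ζ ^ (n * (l + 1)) = ζ ^ ((n - 1 - i) * (l + 1)) * (ζ ^ (i + 1)) ^ (l + 1) := by
          rw [← pow_mul, ← pow_add, ← add_mul]
          congr 2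
          omega
        rw [e2, inv_pow]
        have hz1 : ζ ^ ((n - 1 - i) * (l + 1)) ≠ 0 := pow_ne_zero _ ζ_ne
        have hz2 : (ζ ^ (i + 1)) ^ (l + 1) ≠ 0 := pow_ne_zero _ (pow_ne_zero _ ζ_ne)
        simp only [hq]
        field_simp
      · rw [Finset.sum_mul]
        simp only [hP]
        refine Finset.sum_congr rfl fun i _ => ?_
        rw [c2, add_mul, pow_add, pow_mul ζ i (l + 1)]
        simp only [hp]
        field_simp
    -- Cesaro
    have hC1 : Tendsto (fun N : ℕ => ((N + 1 : ℕ) : ℝ)⁻¹ • ∑ n ∈ Finset.range (N + 1), (Q n + P n)) atTop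
        (𝓝 ((∑' i, q i * ((ζ ^ (i + 1))⁻¹) ^ (l + 1)) + ∑' i, p i * (ζ ^ i) ^ (l + 1))) :=
      ((hQt.add hPt).cesaro_smul).comp (tendsto_add_atTop_nat 1)
    have hsum : ∀ N, ∑ n ∈ Finset.range (N + 1), (Q n + P n)
        = ∑ n ∈ Finset.range (N + 1),
          (R^[n] x : E) (N, l) * (((l : ℂ) + 1) * ((N : ℂ) + 1)) * (ζ ^ (n * (l + 1)))⁻¹ := by
      intro N
      rw [Finset.sum_add_distrib, ← Finset.sum_range_reflect P, ← Finset.sum_add_distrib]
      refine Finset.sum_congr rfl fun n hn => ?_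
      rw [Finset.mem_range] at hn
      rw [hG N n (by omega)]
      congr 2
    -- bound
    have hbound : ∀ δ : ℝ, 0 < δ →
        ‖(∑' i, q i * ((ζ ^ (i + 1))⁻¹) ^ (l + 1)) + ∑' i, p i * (ζ ^ i) ^ (l + 1)‖ ≤
          (4 * δ) * (l + 1) := by
      intro δ hδ
      obtain ⟨s, hs⟩ := summable_iff_vanishing_norm.1 hs2 δ hδ
      obtain ⟨M, hM⟩ := s.bddAbove
      -- contributions of the first terms
      have hfirst : Tendsto (fun N : ℕ => ((N + 1 : ℕ) : ℝ)⁻¹ * ∑ n ∈ Finset.range (M + 1),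
          (‖Q n‖ + ‖P (N - n)‖)) atTop (𝓝 0) := by
        have hb : ∃ C, ∀ N, ∑ n ∈ Finset.range (M + 1), (‖Q n‖ + ‖P (N - n)‖) ≤ C := by
          obtain ⟨C1, hC1⟩ := (Metric.isBounded_range_of_tendsto Q hQt).exists_norm_le
          obtain ⟨C2, hC2⟩ := (Metric.isBounded_range_of_tendsto P hPt).exists_norm_le
          refine ⟨∑ n ∈ Finset.range (M + 1), (C1 + C2), fun N => Finset.sum_le_sum fun n _ => ?_⟩
          exact add_le_add (hC1 _ ⟨n, rfl⟩) (hC2 _ ⟨N - n, rfl⟩)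
        obtain ⟨C, hC⟩ := hb
        have h0 : Tendsto (fun N : ℕ => ((N + 1 : ℕ) : ℝ)⁻¹ * C) atTop (𝓝 (0 * C)) :=
          ((tendsto_inv_atTop_zero.comp (tendsto_natCast_atTop_atTop)).comp
            (tendsto_add_atTop_nat 1)).mul_const C
        rw [zero_mul] at h0
        refine squeeze_zero (fun N => by positivity) (fun N => ?_) h0
        gcongr
        exact hC N
      have hle : ∀ᶠ N : ℕ in atTop,
          ‖((N + 1 : ℕ) : ℝ)⁻¹ • ∑ n ∈ Finset.range (N + 1), (Q n + P n)‖ ≤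
          ((N + 1 : ℕ) : ℝ)⁻¹ * ∑ n ∈ Finset.range (M + 1), (‖Q n‖ + ‖P (N - n)‖) + (4 * δ) * (l + 1) := by
        filter_upwards [eventually_ge_atTop M] with N hN
        have hN0 : (0:ℝ) < ((N + 1 : ℕ) : ℝ) := by positivity
        rw [hsum, norm_smul, norm_inv, Real.norm_eq_abs, abs_of_pos hN0]
        rw [← Finset.sum_range_add_sum_Ico _ (show M + 1 ≤ N + 1 by omega)]
        have a1 : ‖∑ n ∈ Finset.range (M + 1),
            (R^[n] x : E) (N, l) * (((l : ℂ) + 1) * ((N : ℂ) + 1)) * (ζ ^ (n * (l + 1)))⁻¹‖ ≤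
            ∑ n ∈ Finset.range (M + 1), (‖Q n‖ + ‖P (N - n)‖) := by
          refine (norm_sum_le _ _).trans (Finset.sum_le_sum fun n hn => ?_)
          rw [Finset.mem_range] at hn
          rw [hG N n (by omega)]
          exact norm_add_le _ _
        have a2 : ∑ n ∈ Finset.Ico (M + 1) (N + 1), ‖(R^[n] x : E) (N, l)‖ ≤ 4 * δ := by
          apply sub4
          intro t' ht'
          have hdis : Disjoint t' s := by
            rw [Finset.disjoint_left]
            intro n hn hns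
            have h3 := Finset.mem_Ico.1 (ht' hn)
            have h4 : n ≤ M := hM hns
            omega
          have h5 := hs t' hdis
          have h6 : ∑ n ∈ t', (R^[n] x : E) (N, l) = ((∑ n ∈ t', R^[n] x : X) : E) (N, l) := by
            rw [Submodule.coe_sum, BoundedContinuousFunction.sum_apply]
          rw [h6]
          exact (BoundedContinuousFunction.norm_coe_le_norm _ _).trans h5.le
        have a3 : ‖∑ n ∈ Finset.Ico (M + 1) (N + 1),
            (R^[n] x : E) (N, l) * (((l : ℂ) + 1) * ((N : ℂ) + 1)) * (ζ ^ (n * (l + 1)))⁻¹‖ ≤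
            (4 * δ) * ((l + 1) * (N + 1)) := by
          refine (norm_sum_le _ _).trans ?_
          have e3 : ∀ n, ‖(R^[n] x : E) (N, l) * (((l : ℂ) + 1) * ((N : ℂ) + 1)) * (ζ ^ (n * (l + 1)))⁻¹‖
              = ‖(R^[n] x : E) (N, l)‖ * (((l : ℝ) + 1) * ((N : ℝ) + 1)) := by
            intro n
            rw [norm_mul, norm_mul, norm_inv, ζ_pow_norm, inv_one, mul_one]
            have := den_norm (N, l)
            rw [this]
          simp only [e3]
          rw [← Finset.sum_mul]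
          gcongr
        calc ((N + 1 : ℕ) : ℝ)⁻¹ * _ ≤ ((N + 1 : ℕ) : ℝ)⁻¹ *
              (∑ n ∈ Finset.range (M + 1), (‖Q n‖ + ‖P (N - n)‖) + (4 * δ) * ((l + 1) * (N + 1))) := by
                gcongr
                exact (norm_add_le _ _).trans (add_le_add a1 a3)
          _ = _ := by
              push_cast
              have : (N : ℝ) + 1 ≠ 0 := by positivity
              field_simp
      have h7 := le_of_tendsto_of_tendsto hC1.norm (hfirst.add_const ((4 * δ) * (l + 1))) hle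
      rwa [zero_add] at h7
    have hz : ‖(∑' i, q i * ((ζ ^ (i + 1))⁻¹) ^ (l + 1)) + ∑' i, p i * (ζ ^ i) ^ (l + 1)‖ ≤ 0 := by
      refine le_of_forall_pos_le_add fun ε hε => ?_
      rw [zero_add]
      have h8 := hbound (ε / (4 * (l + 1))) (by positivity)
      refine h8.trans (le_of_eq ?_)
      have : ((l : ℝ) + 1) ≠ 0 := by positivity
      field_simp
    have := norm_le_zero_iff.1 hz
    rw [add_comm]
    exact this
  -- averaging over the characters
  have hA1 := avg p (fun i => ζ ^ i) hps (fun i => ζ_pow_norm i)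
  have hA2 := avg q (fun i => (ζ ^ (i + 1))⁻¹) hqs (fun i => by rw [norm_inv, ζ_pow_norm, inv_one])
  have hA := hA1.add hA2
  have e0' : ∀ Λ : ℕ, (Λ : ℂ)⁻¹ * ∑ l ∈ Finset.range Λ, ∑' i, p i * (ζ ^ i) ^ (l + 1) +
      (Λ : ℂ)⁻¹ * ∑ l ∈ Finset.range Λ, ∑' i, q i * ((ζ ^ (i + 1))⁻¹) ^ (l + 1) = 0 := by
    intro Λ
    rw [← mul_add, ← Finset.sum_add_distrib]
    simp only [main, Finset.sum_const_zero, mul_zero]
  simp only [e0'] at hA
  have hlim := tendsto_nhds_unique hA tendsto_const_nhds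
  have hp1 : (∑' i, if ζ ^ i = 1 then p i else 0) = p 0 := by
    rw [tsum_eq_single 0]
    · rw [if_pos (pow_zero _)]
    · intro i hi
      rw [if_neg (ζ_pow_ne (by omega))]
  have hq1 : (∑' i, if (ζ ^ (i + 1))⁻¹ = 1 then q i else 0) = 0 := by
    have : ∀ i, (if (ζ ^ (i + 1))⁻¹ = 1 then q i else 0) = 0 := by
      intro i
      rw [if_neg]
      intro h
      rw [inv_eq_one] at h
      exact ζ_pow_ne (by omega) h
    simp only [this, tsum_zero]
  rw [hp1, hq1, add_zero] at hlim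
  exact hx0 hlim

end Pool.Agent.TH232.Fhc
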