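import Mathlib

set_option autoImplicit false
open Filter Topology

namespace Pool.Agent.TH232.Fhc

/-- `ζ = e^i`, a unimodular number which is not a root of unity -/
noncomputable def ζ : ℂ := Complex.exp Complex.I

theorem ζ_norm : ‖ζ‖ = 1 := by
  unfold ζ
  rw [Complex.norm_exp]
  simp

theorem ζ_ne : ζ ≠ 0 := Complex.exp_ne_zero _

theorem ζ_pow_norm (n : ℕ) : ‖ζ ^ n‖ = 1 := by rw [norm_pow, ζ_norm, one_pow]

theorem ζ_pow_ne {n : ℕ} (hn : 0 < n) : ζ ^ n ≠ 1 := by
  intro h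
  unfold ζ at h
  rw [← Complex.exp_nat_mul, Complex.exp_eq_one_iff] at h
  obtain ⟨k, hk⟩ := h
  have h1 : (n : ℂ) = k * (2 * Real.pi) := by
    have := mul_right_cancel₀ Complex.I_ne_zero (by rw [hk]; ring :
      (n : ℂ) * Complex.I = (k * (2 * Real.pi)) * Complex.I)
    exact this
  have h2 : (n : ℝ) = k * (2 * Real.pi) := by exact_mod_cast h1
  have hk0 : k ≠ 0 := by
    rintro rfl
    simp at h2
    omega
  apply irrational_pi
  refine ⟨(n : ℚ) / (2 * k), ?_⟩
  push_cast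
  have : (k : ℝ) ≠ 0 := by exact_mod_cast hk0
  rw [h2]
  field_simp

/-- partial sums against the character `ζ^l` -/
noncomputable def S (x : ℕ → ℂ) (l N : ℕ) : ℂ := ∑ j ∈ Finset.range N, x j * ζ ^ (j * l)

theorem S_add (x y : ℕ → ℂ) (l N : ℕ) : S (fun j => x j + y j) l N = S x l N + S y l N := by
  unfold S
  rw [← Finset.sum_add_distrib]
  exact Finset.sum_congr rfl fun j _ => by ring

theorem S_sub (x y : ℕ → ℂ) (l N : ℕ) : S (fun j => x j - y j) l N = S x l N - S y l N := by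
  unfold S
  rw [← Finset.sum_sub_distrib]
  exact Finset.sum_congr rfl fun j _ => by ring

theorem S_smul (c : ℂ) (x : ℕ → ℂ) (l N : ℕ) : S (fun j => c * x j) l N = c * S x l N := by
  unfold S
  rw [Finset.mul_sum]
  exact Finset.sum_congr rfl fun j _ => by ring

theorem S_le_sum (x : ℕ → ℂ) (l N : ℕ) : ‖S x l N‖ ≤ ∑ j ∈ Finset.range N, ‖x j‖ := by
  unfold S
  refine (norm_sum_le _ _).trans (Finset.sum_le_sum fun j _ => ?_)
  rw [norm_mul, ζ_pow_norm, mul_one]

theorem S_le (x : ℕ → ℂ) (C : ℝ) (hC : ∀ j, ‖x j‖ ≤ C) (l N : ℕ) : ‖S x l N‖ ≤ C * N := by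
  refine (S_le_sum x l N).trans ((Finset.sum_le_sum fun j _ => hC j).trans ?_)
  rw [Finset.sum_const, Finset.card_range, nsmul_eq_mul, mul_comm]

/-- the big Banach space -/
abbrev E : Type := BoundedContinuousFunction (ℕ × ℕ) ℂ

/-- bounded sequences -/
abbrev Lb : Type := BoundedContinuousFunction ℕ ℂ

/-- the averages -/
noncomputable def pre (x : ℕ → ℂ) (p : ℕ × ℕ) : ℂ :=
  S x (p.2 + 1) (p.1 + 1) / (((p.2 : ℂ) + 1) * ((p.1 : ℂ) + 1))

theorem den_norm (p : ℕ × ℕ) : ‖((p.2 : ℂ) + 1) * ((p.1 : ℂ) + 1)‖ = ((p.2 : ℝ) + 1) * ((p.1 : ℝ) + 1) := by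
  rw [norm_mul]
  have : ∀ n : ℕ, ‖(n : ℂ) + 1‖ = (n : ℝ) + 1 := by
    intro n
    have := Complex.norm_natCast (n + 1)
    push_cast at this
    exact this
  rw [this, this]

theorem pre_le (x : ℕ → ℂ) (c : ℝ) (p : ℕ × ℕ)
    (h : ‖S x (p.2 + 1) (p.1 + 1)‖ ≤ c * (((p.2 : ℝ) + 1) * ((p.1 : ℝ) + 1))) : ‖pre x p‖ ≤ c := by
  unfold pre
  rw [norm_div, den_norm, div_le_iff₀ (by positivity)]
  exact h

theorem pre_bd (x : Lb) (p : ℕ × ℕ) : ‖pre x p‖ ≤ ‖x‖ := by
  apply pre_le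
  have h1 := S_le x ‖x‖ (fun j => x.norm_coe_le_norm j) (p.2 + 1) (p.1 + 1)
  push_cast at h1
  refine h1.trans ?_
  refine mul_le_mul_of_nonneg_left ?_ (norm_nonneg _)
  have h2 : (0:ℝ) ≤ p.2 := Nat.cast_nonneg _
  have h3 : (0:ℝ) ≤ p.1 := Nat.cast_nonneg _
  nlinarith

/-- the embedding of bounded sequences -/
noncomputable def V : Lb →L[ℂ] E :=
  LinearMap.mkContinuous
    { toFun := fun x => BoundedContinuousFunction.ofNormedAddCommGroupDiscrete (pre x) ‖x‖ (pre_bd x)
      map_add' := by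
        intro x y
        ext p
        show pre (fun j => x j + y j) p = pre x p + pre y p
        unfold pre
        rw [S_add, add_div]
      map_smul' := by
        intro c x
        ext p
        show pre (fun j => c * x j) p = c * pre x p
        unfold pre
        rw [S_smul, mul_div_assoc] } 1 (by
      intro x
      rw [one_mul]
      exact (BoundedContinuousFunction.norm_le (norm_nonneg _)).2 fun p => pre_bd x p)

theorem V_apply (x : Lb) (p : ℕ × ℕ) : V x p = pre x p := rfl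

theorem V_norm_le (x : Lb) (c : ℝ) (hc : 0 ≤ c)
    (h : ∀ l N : ℕ, 1 ≤ l → 1 ≤ N → ‖S x l N‖ ≤ c * (l * N)) : ‖V x‖ ≤ c := by
  refine (BoundedContinuousFunction.norm_le hc).2 fun p => ?_
  rw [V_apply]
  apply pre_le
  have := h (p.2 + 1) (p.1 + 1) (by omega) (by omega)
  push_cast at this
  exact this

/-- the shift on the big space -/
noncomputable def TEf (f : E) (p : ℕ × ℕ) : ℂ :=
  (ζ ^ (p.2 + 1))⁻¹ * ((((p.1 : ℂ) + 2) * f (p.1 + 1, p.2) - f (0, p.2)) / ((p.1 : ℂ) + 1))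

theorem TEf_le (f : E) (p : ℕ × ℕ) : ‖TEf f p‖ ≤ 3 * ‖f‖ := by
  unfold TEf
  have h1 : ‖(p.1 : ℂ) + 1‖ = (p.1 : ℝ) + 1 := by
    have := Complex.norm_natCast (p.1 + 1); push_cast at this; exact this
  have h2 : ‖(p.1 : ℂ) + 2‖ = (p.1 : ℝ) + 2 := by
    have := Complex.norm_natCast (p.1 + 2); push_cast at this; exact this
  rw [norm_mul, norm_inv, ζ_pow_norm, inv_one, one_mul, norm_div, h1, div_le_iff₀ (by positivity)]
  refine (norm_sub_le _ _).trans ?_
  rw [norm_mul, h2]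
  have h3 := f.norm_coe_le_norm (p.1 + 1, p.2)
  have h4 := f.norm_coe_le_norm (0, p.2)
  have h5 : (0:ℝ) ≤ p.1 := Nat.cast_nonneg _
  have h6 : 0 ≤ ‖f‖ := norm_nonneg _
  nlinarith [mul_le_mul_of_nonneg_left h3 (show (0:ℝ) ≤ (p.1 : ℝ) + 2 by linarith),
    mul_nonneg h5 h6]

noncomputable def TE : E →L[ℂ] E :=
  LinearMap.mkContinuous
    { toFun := fun f => BoundedContinuousFunction.ofNormedAddCommGroupDiscrete (TEf f) (3 * ‖f‖) (TEf_le f)
      map_add' := by
        intro f g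
        ext p
        show TEf (f + g) p = TEf f p + TEf g p
        simp only [TEf, BoundedContinuousFunction.coe_add, Pi.add_apply]
        ring
      map_smul' := by
        intro c f
        ext p
        show TEf (c • f) p = c * TEf f p
        simp only [TEf, BoundedContinuousFunction.coe_smul, smul_eq_mul]
        ring } 3 (by
      intro f
      exact (BoundedContinuousFunction.norm_le (by positivity)).2 fun p => TEf_le f p)

theorem TE_apply (f : E) (p : ℕ × ℕ) : TE f p = TEf f p := rfl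

/-- the shift on bounded sequences -/
noncomputable def sh : Lb →L[ℂ] Lb :=
  LinearMap.mkContinuous
    { toFun := fun x => BoundedContinuousFunction.ofNormedAddCommGroupDiscrete (fun j => x (j + 1)) ‖x‖
        (fun j => x.norm_coe_le_norm _)
      map_add' := by intro x y; ext p; rfl
      map_smul' := by intro c x; ext p; rfl } 1 (by
      intro x
      rw [one_mul]
      exact (BoundedContinuousFunction.norm_le (norm_nonneg _)).2 fun p => x.norm_coe_le_norm _)

theorem sh_apply (x : Lb) (j : ℕ) : sh x j = x (j + 1) := rfl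

theorem sh_pow_apply (x : Lb) (n j : ℕ) : (sh ^ n) x j = x (j + n) := by
  induction n generalizing x with
  | zero => rfl
  | succ n ih =>
    rw [pow_succ]
    show (sh ^ n) (sh x) j = _
    rw [ih, sh_apply]
    congr 1

theorem S_shift (x : ℕ → ℂ) (l N : ℕ) : S (fun j => x (j + 1)) l N = (ζ ^ l)⁻¹ * (S x l (N + 1) - x 0) := by
  unfold S
  rw [Finset.sum_range_succ' (fun j => x j * ζ ^ (j * l)) N]
  simp only [zero_mul, pow_zero, mul_one, add_sub_cancel_right]
  rw [Finset.mul_sum]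
  refine Finset.sum_congr rfl fun j _ => ?_
  have : ζ ^ l ≠ 0 := pow_ne_zero _ ζ_ne
  rw [add_mul, one_mul, pow_add]
  field_simp

theorem TE_V (x : Lb) : TE (V x) = V (sh x) := by
  ext p
  rw [TE_apply, V_apply]
  unfold TEf
  rw [V_apply, V_apply]
  have e : ((sh x : Lb) : ℕ → ℂ) = fun j => x (j + 1) := rfl
  unfold pre
  rw [e, S_shift]
  have h0 : S x (p.2 + 1) (0 + 1) = x 0 := by simp [S]
  simp only
  rw [h0]
  have h1 : ((p.1 : ℂ) + 1) ≠ 0 := by
    have : ((p.1 + 1 : ℕ) : ℂ) ≠ 0 := Nat.cast_ne_zero.2 (by omega)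
    push_cast at this; exact this
  have h2 : ((p.2 : ℂ) + 1) ≠ 0 := by
    have : ((p.2 + 1 : ℕ) : ℂ) ≠ 0 := Nat.cast_ne_zero.2 (by omega)
    push_cast at this; exact this
  have h3 : ((p.1 : ℂ) + 2) ≠ 0 := by
    have : ((p.1 + 2 : ℕ) : ℂ) ≠ 0 := Nat.cast_ne_zero.2 (by omega)
    push_cast at this; exact this
  have h4 : ((p.1 : ℂ) + 1 + 1) ≠ 0 := by
    have : ((p.1 + 2 : ℕ) : ℂ) ≠ 0 := Nat.cast_ne_zero.2 (by omega)
    push_cast at this
    rwa [add_assoc, one_add_one_eq_two]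
  have h5 : ζ ^ (p.2 + 1) ≠ 0 := pow_ne_zero _ ζ_ne
  push_cast
  field_simp
  ring

theorem TE_pow_V (n : ℕ) (x : Lb) : (TE ^ n) (V x) = V ((sh ^ n) x) := by
  induction n generalizing x with
  | zero => rfl
  | succ n ih =>
    rw [pow_succ, pow_succ]
    show (TE ^ n) (TE (V x)) = V ((sh ^ n) (sh x))
    rw [TE_V, ih]

/-- finitely supported sequences -/
def c00 : Submodule ℂ Lb where
  carrier := {x | ∃ M : ℕ, ∀ j, M ≤ j → x j = 0}
  add_mem' := by
    rintro x y ⟨M, hM⟩ ⟨M', hM'⟩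
    refine ⟨max M M', fun j hj => ?_⟩
    rw [BoundedContinuousFunction.coe_add, Pi.add_apply, hM j (le_of_max_le_left hj),
      hM' j (le_of_max_le_right hj), add_zero]
  zero_mem' := ⟨0, fun j _ => rfl⟩
  smul_mem' := by
    rintro c x ⟨M, hM⟩
    refine ⟨M, fun j hj => ?_⟩
    show c • x j = 0
    rw [hM j hj, smul_zero]

/-- the space -/
noncomputable def X : Submodule ℂ E := (c00.map (V : Lb →ₗ[ℂ] E)).topologicalClosure

theorem X_closed : IsClosed (X : Set E) := Submodule.isClosed_topologicalClosure _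

instance : CompleteSpace X := X_closed.completeSpace_coe

theorem V_mem_X {x : Lb} (hx : x ∈ c00) : V x ∈ X :=
  Submodule.le_topologicalClosure _ (Submodule.mem_map_of_mem hx)

theorem sh_mem {x : Lb} (hx : x ∈ c00) : sh x ∈ c00 := by
  obtain ⟨M, hM⟩ := hx
  exact ⟨M, fun j hj => hM (j + 1) (by omega)⟩

theorem TE_mem {f : E} (hf : f ∈ X) : TE f ∈ X := by
  have h1 : Set.MapsTo TE ((c00.map (V : Lb →ₗ[ℂ] E) : Submodule ℂ E) : Set E)
      ((c00.map (V : Lb →ₗ[ℂ] E) : Submodule ℂ E) : Set E) := by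
    rintro _ ⟨x, hx, rfl⟩
    exact ⟨sh x, sh_mem hx, (TE_V x).symm⟩
  exact h1.closure TE.continuous hf

/-- the operator -/
noncomputable def T : X →L[ℂ] X := (TE.comp X.subtypeL).codRestrict X fun f => TE_mem f.2

theorem T_coe (f : X) : ((T f : X) : E) = TE f := rfl

theorem T_pow_coe (n : ℕ) (f : X) : (((T ^ n) f : X) : E) = (TE ^ n) f := by
  induction n generalizing f with
  | zero => rfl
  | succ n ih =>
    rw [pow_succ, pow_succ]
    show (((T ^ n) (T f) : X) : E) = (TE ^ n) (TE f)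
    rw [ih, T_coe]

end Pool.Agent.TH232.Fhc
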