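import Pool.Agent.TH232.Fhc.Per

set_option autoImplicit false
open Filter Topology

namespace Pool.Agent.TH232.Fhc

/-- a periodic bounded sequence -/
structure St where
  D : ℕ
  hD : 0 < D
  y : Lb
  per : ∀ j, y (j + D) = y j

theorem St.per_mul (s : St) (j k : ℕ) : s.y (j + s.D * k) = s.y j := by
  induction k with
  | zero => simp
  | succ k ih => rw [mul_add, mul_one, ← add_assoc, s.per, ih]

/-- the properties of the parameters of one step -/
structure Good (p : ℕ) (v : Lb) (s : St) (L m : ℕ) : Prop where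
  hL : 1 ≤ L
  hLm : L ≤ m
  hdvd : s.D ∣ m
  hp : p + L ≤ m
  hv : ∀ j, L ≤ j → v j = 0
  hbig : 40 * L * 2 ^ p * s.D ≤ m
  hg : ∀ l a N, 1 ≤ l → a + N ≤ L →
    ‖S (fun j => v (a + j) - s.y (a + j)) l N‖ ≤ l * ((1 / 2 : ℝ) ^ p * L / 3)
  hy : ∀ l a N, 1 ≤ l → L ≤ N → ‖S (fun j => s.y (a + j)) l N‖ ≤ (1 / 2 : ℝ) ^ p * (l * N)
  hvv : ∀ l N, 1 ≤ l → L ≤ N → ‖S v l N‖ ≤ (1 / 2 : ℝ) ^ p * (l * N)

theorem S_c00 (v : Lb) (M : ℕ) (hM : ∀ j, M ≤ j → v j = 0) (l a N : ℕ) :
    ‖S (fun j => v (a + j)) l N‖ ≤ ∑ j ∈ Finset.range M, ‖v j‖ := by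
  refine (S_le_sum _ _ _).trans ?_
  have h1 : ∑ j ∈ Finset.range N, ‖v (a + j)‖ = ∑ j ∈ (Finset.range N).image (fun j => a + j), ‖v j‖ := by
    rw [Finset.sum_image]
    intro i _ j _ h
    exact Nat.add_left_cancel h
  rw [h1]
  have h2 : ∑ j ∈ (Finset.range N).image (fun j => a + j), ‖v j‖
      = ∑ j ∈ ((Finset.range N).image (fun j => a + j)).filter (fun j => j < M), ‖v j‖ := by
    rw [Finset.sum_filter]
    refine Finset.sum_congr rfl fun j _ => ?_
    split_ifs with h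
    · rfl
    · rw [hM j (by omega), norm_zero]
  rw [h2]
  apply Finset.sum_le_sum_of_subset_of_nonneg
  · intro j hj
    rw [Finset.mem_filter] at hj
    exact Finset.mem_range.2 hj.2
  · intro _ _ _; exact norm_nonneg _

theorem good_exists (p : ℕ) (v : Lb) (hv : v ∈ c00) (s : St) : ∃ L m : ℕ, Good p v s L m := by
  obtain ⟨M, hM⟩ := hv
  set ε : ℝ := (1 / 2 : ℝ) ^ p with hε
  have hε0 : 0 < ε := by positivity
  obtain ⟨K, hK0, hK⟩ := per_bound s.y s.D s.hD ‖s.y‖ (fun j => s.y.norm_coe_le_norm j) s.per (ε / 9)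
    (by positivity)
  set C : ℝ := ∑ j ∈ Finset.range M, ‖v j‖ with hC
  have hC0 : 0 ≤ C := Finset.sum_nonneg fun _ _ => norm_nonneg _
  obtain ⟨L0, hL0⟩ := exists_nat_ge (9 * (K + C) / ε)
  set L := L0 + M + 1 with hL
  set m := s.D * (40 * L * 2 ^ p * s.D + p + L) with hm
  have hD := s.hD
  have hLr : K + C ≤ ε * L / 9 := by
    rw [div_le_iff₀ hε0] at hL0
    have : (L0 : ℝ) ≤ L := by exact_mod_cast (by omega : L0 ≤ L)
    nlinarith
  have hmle : 40 * L * 2 ^ p * s.D + p + L ≤ m := by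
    rw [hm]; exact Nat.le_mul_of_pos_left _ hD
  have e1 : (fun j => v j) = fun j => v (0 + j) := by funext j; rw [zero_add]
  refine ⟨L, m, ⟨by omega, by omega, Dvd.intro _ rfl, by omega, fun j hj => hM j (by omega), by omega,
    ?_, ?_, ?_⟩⟩
  · intro l a N hl haN
    have hl1 : (1:ℝ) ≤ l := by exact_mod_cast hl
    have hN1 : (N:ℝ) ≤ L := by exact_mod_cast (by omega : N ≤ L)
    rw [S_sub]
    have h1 := S_c00 v M hM l a N
    have h2 := hK a N l hl
    have h3 : (l:ℝ) * (ε / 9 * N + K) ≤ l * (ε / 9 * L + K) := by gcongr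
    have h4 : C ≤ l * C := by nlinarith
    calc _ ≤ _ := norm_sub_le _ _
      _ ≤ l * C + l * (ε / 9 * L + K) := add_le_add (h1.trans h4) (h2.trans h3)
      _ = l * (ε * L / 9 + (K + C)) := by ring
      _ ≤ l * (ε * L / 9 + ε * L / 9) := by gcongr
      _ ≤ l * (ε * L / 3) := by
          have : (0:ℝ) ≤ L := Nat.cast_nonneg _
          have h5 : 0 ≤ ε * L := by positivity
          gcongr
          linarith
  · intro l a N hl hN
    have hl1 : (1:ℝ) ≤ l := by exact_mod_cast hl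
    have hN1 : (L:ℝ) ≤ N := by exact_mod_cast hN
    refine (hK a N l hl).trans ?_
    have h1 : K ≤ ε * N / 9 := by nlinarith
    have h5 : 0 ≤ ε * N := by positivity
    calc (l:ℝ) * (ε / 9 * N + K) ≤ l * (ε / 9 * N + ε * N / 9) := by gcongr
      _ = (l * (ε * N)) * (2 / 9) := by ring
      _ ≤ (l * (ε * N)) * 1 := by gcongr; norm_num
      _ = ε * (l * N) := by ring
  · intro l N hl hN
    have hl1 : (1:ℝ) ≤ l := by exact_mod_cast hl
    have hN1 : (L:ℝ) ≤ N := by exact_mod_cast hN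
    have h1 := S_c00 v M hM l 0 N
    simp only [zero_add] at h1
    refine h1.trans ?_
    have h5 : 0 ≤ ε * N := by positivity
    have h6 : C ≤ ε * N := by nlinarith
    calc C ≤ ε * N := h6
      _ ≤ l * (ε * N) := by nlinarith
      _ = ε * (l * N) := by ring

/-- the next sequence -/
noncomputable def nextY (v : Lb) (s : St) (L m : ℕ) : Lb :=
  BoundedContinuousFunction.ofNormedAddCommGroupDiscrete
    (fun j => if ρ m j < L then v (ρ m j) else s.y j) (‖v‖ + ‖s.y‖) (fun j => by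
      split_ifs
      · exact (v.norm_coe_le_norm _).trans (le_add_of_nonneg_right (norm_nonneg _))
      · exact (s.y.norm_coe_le_norm _).trans (le_add_of_nonneg_left (norm_nonneg _)))

theorem nextY_apply (v : Lb) (s : St) (L m j : ℕ) :
    nextY v s L m j = if ρ m j < L then v (ρ m j) else s.y j := rfl

theorem nextY_per {p : ℕ} {v : Lb} {s : St} {L m : ℕ} (h : Good p v s L m) (j : ℕ) :
    nextY v s L m (j + 2 * m) = nextY v s L m j := by
  obtain ⟨k, hk⟩ := h.hdvd
  rw [nextY_apply, nextY_apply, ρ_period]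
  have : s.y (j + 2 * m) = s.y j := by
    rw [hk, show j + 2 * (s.D * k) = j + s.D * (2 * k) by ring, s.per_mul]
  rw [this]

theorem y_ρ {p : ℕ} {v : Lb} {s : St} {L m : ℕ} (h : Good p v s L m) (j : ℕ) :
    s.y j = s.y (ρ m j) := by
  obtain ⟨k, hk⟩ := h.hdvd
  have h1 : s.y j = s.y (j + m) := by rw [hk, s.per_mul]
  have h2 := Nat.div_add_mod (j + m) (2 * m)
  rw [h1]
  have h3 : j + m = ρ m j + s.D * (2 * k * ((j + m) / (2 * m))) := by
    unfold ρ
    conv_lhs => rw [← h2]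
    have : 2 * m * ((j + m) / (2 * m)) = s.D * (2 * k * ((j + m) / (2 * m))) := by
      conv_lhs => rw [show 2 * m = s.D * (2 * k) by rw [hk]; ring]
      rw [mul_assoc]
      congr 2
      rw [show 2 * m = s.D * (2 * k) by rw [hk]; ring]
    rw [this, add_comm]
  conv_lhs => rw [h3]
  rw [s.per_mul]

theorem diff_blk {p : ℕ} {v : Lb} {s : St} {L m : ℕ} (h : Good p v s L m) (j : ℕ) :
    nextY v s L m j - s.y j = blk m L (fun i => v i - s.y i) j := by
  rw [nextY_apply]
  unfold blk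
  split_ifs
  · show v (ρ m j) - s.y j = v (ρ m j) - s.y (ρ m j)
    rw [← y_ρ h j]
  · rw [sub_self]

/-- the parameters -/
noncomputable def stepL (p : ℕ) (v : c00) (s : St) : ℕ := (good_exists p v v.2 s).choose
noncomputable def stepM (p : ℕ) (v : c00) (s : St) : ℕ := (good_exists p v v.2 s).choose_spec.choose

theorem step_good (p : ℕ) (v : c00) (s : St) : Good p v s (stepL p v s) (stepM p v s) :=
  (good_exists p v v.2 s).choose_spec.choose_spec

noncomputable def nextSt (p : ℕ) (v : c00) (s : St) : St where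
  D := 2 * stepM p v s
  hD := by have h := step_good p v s; have := h.hL; have := h.hLm; omega
  y := nextY v s (stepL p v s) (stepM p v s)
  per := nextY_per (step_good p v s)

section seq
variable (v : ℕ → c00)

noncomputable def st : ℕ → St
  | 0 => ⟨1, one_pos, 0, fun _ => rfl⟩
  | p + 1 => nextSt p (v p) (st p)

noncomputable def LL (p : ℕ) : ℕ := stepL p (v p) (st v p)
noncomputable def mm (p : ℕ) : ℕ := stepM p (v p) (st v p)

theorem good (p : ℕ) : Good p (v p) (st v p) (LL v p) (mm v p) := step_good p (v p) (st v p)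

theorem st_D (p : ℕ) : (st v (p + 1)).D = 2 * mm v p := rfl

theorem st_y (p : ℕ) : (st v (p + 1)).y = nextY (v p) (st v p) (LL v p) (mm v p) := rfl

/-- the increments -/
noncomputable def zz (p : ℕ) : Lb := (st v (p + 1)).y - (st v p).y

/-- the block -/
noncomputable def gg (p : ℕ) (i : ℕ) : ℂ := (v p : Lb) i - (st v p).y i

theorem gg_bd (p l : ℕ) (hl : 1 ≤ l) (a N : ℕ) (h : a + N ≤ LL v p) :
    ‖S (fun j => gg v p (a + j)) l N‖ ≤ l * ((1 / 2 : ℝ) ^ p * (LL v p) / 3) :=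
  (good v p).hg l a N hl h

theorem zz_apply (p j : ℕ) : zz v p j = blk (mm v p) (LL v p) (gg v p) j :=
  diff_blk (good v p) j

theorem zz_fun (p a : ℕ) : (fun j => zz v p (a + j)) = fun j => blk (mm v p) (LL v p) (gg v p) (a + j) := by
  funext j
  exact zz_apply v p (a + j)

theorem zz_long (p l a N : ℕ) (hl : 1 ≤ l) (hN : LL v p ≤ N) :
    ‖S (fun j => zz v p (a + j)) l N‖ ≤ (1 / 2 : ℝ) ^ p * (l * N) := by
  have h := good v p
  rw [zz_fun]
  exact blk_long (m := mm v p) (L := LL v p) (g := gg v p) h.hL h.hLm l ((1 / 2 : ℝ) ^ p)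
    (by positivity) (gg_bd v p l hl) a N hN

theorem zz_safe (p l a N : ℕ) (hl : 1 ≤ l) (h1 : LL v p ≤ ρ (mm v p) a)
    (h2 : ρ (mm v p) a + LL v p ≤ 2 * mm v p) :
    ‖S (fun j => zz v p (a + j)) l N‖ ≤ (1 / 2 : ℝ) ^ p * (l * N) := by
  have h := good v p
  rw [zz_fun]
  exact blk_safe (m := mm v p) (L := LL v p) (g := gg v p) h.hL h.hLm l ((1 / 2 : ℝ) ^ p)
    (by positivity) (gg_bd v p l hl) a h1 h2 N

theorem zz_per (p j : ℕ) : zz v p (j + 2 * mm v p) = zz v p j := by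
  rw [zz_apply, zz_apply]
  unfold blk
  rw [ρ_period]

theorem mm_pos (p : ℕ) : 0 < mm v p := by
  have h := good v p; have := h.hL; have := h.hLm; omega

theorem zz_mem (p : ℕ) : V (zz v p) ∈ X :=
  per_mem (zz v p) (2 * mm v p) (by have := mm_pos v p; omega) (zz_per v p)

/-- the increments in the space -/
noncomputable def zX (p : ℕ) : X := ⟨V (zz v p), zz_mem v p⟩

theorem sh_pow_fun (x : Lb) (n : ℕ) : (((sh ^ n) x : Lb) : ℕ → ℂ) = fun j => x (n + j) := by
  funext j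
  rw [sh_pow_apply, add_comm]

theorem T_zX_norm (p n : ℕ) (h1 : LL v p ≤ ρ (mm v p) n) (h2 : ρ (mm v p) n + LL v p ≤ 2 * mm v p) :
    ‖(T ^ n) (zX v p)‖ ≤ (1 / 2 : ℝ) ^ p := by
  show ‖(((T ^ n) (zX v p) : X) : E)‖ ≤ _
  rw [T_pow_coe]
  show ‖(TE ^ n) (V (zz v p))‖ ≤ _
  rw [TE_pow_V]
  refine V_norm_le _ _ (by positivity) fun l N hl hN => ?_
  rw [sh_pow_fun]
  exact zz_safe v p l n N hl h1 h2

theorem ρ_zero (p : ℕ) : ρ (mm v p) 0 = mm v p := by
  unfold ρ
  have := mm_pos v p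
  rw [zero_add, Nat.mod_eq_of_lt (by omega)]

theorem zX_norm (p : ℕ) : ‖zX v p‖ ≤ (1 / 2 : ℝ) ^ p := by
  have h := good v p
  have h1 := T_zX_norm v p 0 (by rw [ρ_zero]; exact h.hLm) (by rw [ρ_zero]; have := h.hLm; omega)
  exact h1

theorem zX_summable : Summable (zX v) := by
  refine Summable.of_norm_bounded (g := fun p => (1 / 2 : ℝ) ^ p) ?_ (zX_norm v)
  exact summable_geometric_of_lt_one (by norm_num) (by norm_num)

/-- the frequently hypercyclic vector -/
noncomputable def fx : X := ∑' p, zX v p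

theorem sum_zz (q : ℕ) : ∑ p ∈ Finset.range q, zz v p = (st v q).y := by
  induction q with
  | zero => rfl
  | succ q ih => rw [Finset.sum_range_succ, ih]; unfold zz; abel

/-- the target in the space -/
noncomputable def tX (q : ℕ) : X := ⟨V (v q), V_mem_X (v q).2⟩

theorem center (q n : ℕ) (hn : ρ (mm v q) n = 0) :
    ‖(T ^ n) (∑ p ∈ Finset.range (q + 1), zX v p) - tX v q‖ ≤ 3 * (1 / 2 : ℝ) ^ q := by
  have h := good v q
  have hmp := mm_pos v q
  show ‖(((T ^ n) (∑ p ∈ Finset.range (q + 1), zX v p) - tX v q : X) : E)‖ ≤ _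
  have e1 : (((T ^ n) (∑ p ∈ Finset.range (q + 1), zX v p) - tX v q : X) : E)
      = V ((sh ^ n) (st v (q + 1)).y - v q) := by
    rw [Submodule.coe_sub, T_pow_coe, map_sub, ← TE_pow_V, ← sum_zz, map_sum]
    congr 2
    rw [Submodule.coe_sum]
    rfl
  rw [e1]
  refine V_norm_le _ _ (by positivity) fun l N hl hN => ?_
  have e2 : (((sh ^ n) (st v (q + 1)).y - v q : Lb) : ℕ → ℂ) =
      fun j => (st v (q + 1)).y (n + j) - (v q : Lb) j := by
    funext j
    show ((sh ^ n) (st v (q + 1)).y) j - (v q : Lb) j = _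
    rw [sh_pow_apply, add_comm j n]
  rw [e2]
  by_cases hNL : LL v q ≤ N
  · rw [S_sub]
    have e3 : S (fun j => (st v (q + 1)).y (n + j)) l N
        = S (fun j => (st v q).y (n + j)) l N + S (fun j => zz v q (n + j)) l N := by
      rw [← S_add]
      apply S_congr
      intro j _
      show _ = (st v q).y (n + j) + ((st v (q + 1)).y (n + j) - (st v q).y (n + j))
      ring
    rw [e3]
    have a1 := h.hy l n N hl hNL
    have a2 := zz_long v q l n N hl hNL
    have a3 := h.hvv l N hl hNL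
    calc _ ≤ _ := norm_sub_le _ _
      _ ≤ ((1 / 2 : ℝ) ^ q * (l * N) + (1 / 2 : ℝ) ^ q * (l * N)) + (1 / 2 : ℝ) ^ q * (l * N) :=
          add_le_add ((norm_add_le _ _).trans (add_le_add a1 a2)) a3
      _ = _ := by ring
  · push Not at hNL
    have : S (fun j => (st v (q + 1)).y (n + j) - (v q : Lb) j) l N = S (fun _ => 0) l N := by
      apply S_congr
      intro j hj
      have hlm := h.hLm
      have hr : ρ (mm v q) (n + j) = j := by
        rw [ρ_add (by omega), hn, zero_add]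
      rw [st_y, nextY_apply, hr, if_pos (by omega), sub_self]
    rw [this, S_zero, norm_zero]
    positivity

theorem visit (q n : ℕ) (hn : ρ (mm v q) n = 0)
    (hs : ∀ p, q < p → LL v p ≤ ρ (mm v p) n ∧ ρ (mm v p) n + LL v p ≤ 2 * mm v p) :
    ‖(T ^ n) (fx v) - tX v q‖ ≤ 4 * (1 / 2 : ℝ) ^ q := by
  have hsum := zX_summable v
  have h1 : fx v = (∑ p ∈ Finset.range (q + 1), zX v p) + ∑' p, zX v (p + (q + 1)) :=
    (hsum.sum_add_tsum_nat_add (q + 1)).symm
  have hsum2 : Summable (fun p => zX v (p + (q + 1))) := (summable_nat_add_iff (q + 1)).2 hsum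
  have h2 : (T ^ n) (∑' p, zX v (p + (q + 1))) = ∑' p, (T ^ n) (zX v (p + (q + 1))) :=
    (T ^ n).map_tsum hsum2
  have h3 : ‖∑' p, (T ^ n) (zX v (p + (q + 1)))‖ ≤ (1 / 2 : ℝ) ^ q := by
    have h4 : HasSum (fun p : ℕ => (1 / 2 : ℝ) ^ q * ((1 : ℝ) / 2 / 2 ^ p)) ((1 / 2 : ℝ) ^ q * 1) :=
      (hasSum_geometric_two' (1 : ℝ)).mul_left _
    rw [mul_one] at h4
    refine tsum_of_norm_bounded h4 fun p => ?_
    have := hs (p + (q + 1)) (by omega)
    refine (T_zX_norm v _ n this.1 this.2).trans (le_of_eq ?_)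
    have e5 : ((1:ℝ) / 2) ^ p * 2 ^ p = 1 := by rw [← mul_pow]; norm_num
    rw [pow_add, pow_succ, mul_comm, mul_assoc]
    congr 1
    rw [eq_div_iff (by positivity)]
    linear_combination (1/2 : ℝ) * e5
  have h5 := center v q n hn
  calc ‖(T ^ n) (fx v) - tX v q‖
      = ‖((T ^ n) (∑ p ∈ Finset.range (q + 1), zX v p) - tX v q)
          + ∑' p, (T ^ n) (zX v (p + (q + 1)))‖ := by
        rw [h1, map_add, h2]; congr 1; abel
    _ ≤ 3 * (1 / 2 : ℝ) ^ q + (1 / 2 : ℝ) ^ q := (norm_add_le _ _).trans (add_le_add h5 h3)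
    _ = _ := by ring

end seq

end Pool.Agent.TH232.Fhc
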