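import Pool.Agent.TH232.Fhc.Space

set_option autoImplicit false
open Filter Topology

namespace Pool.Agent.TH232.Fhc

theorem S_append (x : ℕ → ℂ) (l a N : ℕ) :
    S x l (a + N) = S x l a + ζ ^ (a * l) * S (fun j => x (a + j)) l N := by
  unfold S
  rw [Finset.sum_range_add, Finset.mul_sum]
  congr 1
  refine Finset.sum_congr rfl fun j _ => ?_
  rw [add_mul, pow_add]
  ring

theorem S_congr {x y : ℕ → ℂ} {N : ℕ} (l : ℕ) (h : ∀ j, j < N → x j = y j) : S x l N = S y l N := by
  unfold S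
  exact Finset.sum_congr rfl fun j hj => by rw [h j (Finset.mem_range.1 hj)]

theorem S_zero (l N : ℕ) : S (fun _ => 0) l N = 0 := by simp [S]

/-- periodic bounded sequences have small character sums -/
theorem per_bound (y : ℕ → ℂ) (D : ℕ) (hD : 0 < D) (C : ℝ) (hC : ∀ j, ‖y j‖ ≤ C)
    (hper : ∀ j, y (j + D) = y j) (ε : ℝ) (hε : 0 < ε) :
    ∃ K : ℝ, 0 ≤ K ∧ ∀ a N l : ℕ, 1 ≤ l → ‖S (fun j => y (a + j)) l N‖ ≤ l * (ε * N + K) := by
  have hC0 : 0 ≤ C := (norm_nonneg _).trans (hC 0)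
  obtain ⟨l0, hl0⟩ := exists_nat_ge (C / ε)
  refine ⟨∑ l ∈ Finset.range l0, 2 * D * C / ‖1 - ζ ^ (D * l)‖, Finset.sum_nonneg fun _ _ => by positivity,
    fun a N l hl => ?_⟩
  have hl1 : (1:ℝ) ≤ l := by exact_mod_cast hl
  by_cases hll : l0 ≤ l
  · have h1 := S_le (fun j => y (a + j)) C (fun j => hC _) l N
    have h2 : C ≤ ε * l := by
      rw [div_le_iff₀ hε] at hl0
      have : (l0 : ℝ) ≤ l := by exact_mod_cast hll
      nlinarith
    have h3 : 0 ≤ ∑ l ∈ Finset.range l0, 2 * D * C / ‖1 - ζ ^ (D * l)‖ :=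
      Finset.sum_nonneg fun _ _ => by positivity
    have h4 : (0:ℝ) ≤ N := Nat.cast_nonneg _
    calc _ ≤ C * N := h1
      _ ≤ ε * l * N := mul_le_mul_of_nonneg_right h2 h4
      _ ≤ l * (ε * N + ∑ l ∈ Finset.range l0, 2 * D * C / ‖1 - ζ ^ (D * l)‖) := by nlinarith
  · have hne : 1 - ζ ^ (D * l) ≠ 0 := sub_ne_zero.2 (ζ_pow_ne (by positivity)).symm
    have hpos : 0 < ‖1 - ζ ^ (D * l)‖ := norm_pos_iff.2 hne
    set b : ℕ → ℂ := fun j => y (a + j) with hb
    have hbper : (fun j => b (D + j)) = b := by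
      funext j
      simp only [hb]
      rw [show a + (D + j) = (a + j) + D by ring, hper]
    have e1 := S_append b l D N
    have e2 := S_append b l N D
    rw [hbper] at e1
    rw [add_comm D N, e2] at e1
    have e3 : (1 - ζ ^ (D * l)) * S b l N = S b l D - ζ ^ (N * l) * S (fun j => b (N + j)) l D := by
      linear_combination e1
    have h5 : ‖S b l D‖ ≤ C * D := S_le b C (fun j => hC _) l D
    have h6 : ‖S (fun j => b (N + j)) l D‖ ≤ C * D := S_le _ C (fun j => hC _) l D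
    have h7 : ‖1 - ζ ^ (D * l)‖ * ‖S b l N‖ ≤ 2 * D * C := by
      rw [← norm_mul, e3]
      refine (norm_sub_le _ _).trans ?_
      rw [norm_mul, ζ_pow_norm, one_mul]
      linarith
    have h8 : ‖S b l N‖ ≤ 2 * D * C / ‖1 - ζ ^ (D * l)‖ := by
      rw [le_div_iff₀ hpos]; linarith
    have h9 : 2 * D * C / ‖1 - ζ ^ (D * l)‖ ≤ ∑ l ∈ Finset.range l0, 2 * D * C / ‖1 - ζ ^ (D * l)‖ :=
      Finset.single_le_sum (f := fun l => 2 * D * C / ‖1 - ζ ^ (D * l)‖)
        (fun _ _ => by positivity) (Finset.mem_range.2 (by omega))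
    have h10 : (0:ℝ) ≤ ε * N := by positivity
    have h11 : 0 ≤ ∑ l ∈ Finset.range l0, 2 * D * C / ‖1 - ζ ^ (D * l)‖ :=
      Finset.sum_nonneg fun _ _ => by positivity
    nlinarith

/-- a periodic bounded sequence lies in `X` -/
theorem per_mem (y : Lb) (D : ℕ) (hD : 0 < D) (hper : ∀ j, y (j + D) = y j) : V y ∈ X := by
  apply V_mem
  intro ε hε
  obtain ⟨K, hK0, hK⟩ := per_bound y D hD ‖y‖ (fun j => y.norm_coe_le_norm j) hper (ε / 2) (by positivity)
  obtain ⟨M, hM⟩ := exists_nat_ge (2 * K / ε)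
  refine ⟨M, fun N hN l hl => ?_⟩
  have h1 := hK 0 N l hl
  simp only [zero_add] at h1
  refine h1.trans ?_
  have h2 : (M : ℝ) ≤ N := by exact_mod_cast hN
  rw [div_le_iff₀ hε] at hM
  have h3 : (0:ℝ) ≤ l := Nat.cast_nonneg _
  have h4 : K ≤ ε / 2 * N := by nlinarith
  calc (l : ℝ) * (ε / 2 * N + K) ≤ l * (ε / 2 * N + ε / 2 * N) := by gcongr
    _ = ε * (l * N) := by ring

/-! ### the block sequences -/

section block

variable (m L : ℕ) (g : ℕ → ℂ)

/-- the position in the period, which starts at the odd multiples of `m` -/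
def ρ (j : ℕ) : ℕ := (j + m) % (2 * m)

/-- one block at the beginning of each period -/
def blk (j : ℕ) : ℂ := if ρ m j < L then g (ρ m j) else 0

variable {m L g}

theorem ρ_lt (hm : 0 < m) (j : ℕ) : ρ m j < 2 * m := Nat.mod_lt _ (by omega)

theorem ρ_add {a j : ℕ} (h : ρ m a + j < 2 * m) : ρ m (a + j) = ρ m a + j := by
  unfold ρ at h ⊢
  rw [show a + j + m = (a + m) + j by ring, Nat.add_mod]
  have hj : j % (2 * m) = j := Nat.mod_eq_of_lt (by omega)
  rw [hj, Nat.mod_eq_of_lt h]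

theorem ρ_period (a : ℕ) : ρ m (a + 2 * m) = ρ m a := by
  unfold ρ
  rw [show a + 2 * m + m = (a + m) + 2 * m by ring, Nat.add_mod_right]

theorem ρ_next (hm : 0 < m) (a : ℕ) : ρ m (a + (2 * m - ρ m a)) = 0 := by
  have h := ρ_lt hm a
  unfold ρ at h ⊢
  have h2 := Nat.div_add_mod (a + m) (2 * m)
  have : a + (2 * m - (a + m) % (2 * m)) + m = 2 * m * ((a + m) / (2 * m) + 1) := by
    rw [mul_add, mul_one]
    omega
  rw [this, Nat.mul_mod_right]

theorem blk_cell (l : ℕ) (B : ℝ) (hB0 : 0 ≤ B)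
    (hB : ∀ a N, a + N ≤ L → ‖S (fun j => g (a + j)) l N‖ ≤ l * B) (a N : ℕ)
    (h : ρ m a + N ≤ 2 * m) : ‖S (fun j => blk m L g (a + j)) l N‖ ≤ l * B := by
  by_cases hL : L ≤ ρ m a
  · have : S (fun j => blk m L g (a + j)) l N = S (fun _ => 0) l N := by
      apply S_congr
      intro j hj
      unfold blk
      rw [ρ_add (by omega), if_neg (by omega)]
    rw [this, S_zero, norm_zero]
    positivity
  · push Not at hL
    by_cases hN : ρ m a + N ≤ L
    · have : S (fun j => blk m L g (a + j)) l N = S (fun j => g (ρ m a + j)) l N := by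
        apply S_congr
        intro j hj
        unfold blk
        rw [ρ_add (by omega), if_pos (by omega)]
      rw [this]
      exact hB _ _ hN
    · push Not at hN
      obtain ⟨N', rfl⟩ := Nat.exists_eq_add_of_le (show L - ρ m a ≤ N by omega)
      rw [S_append]
      have h1 : S (fun j => blk m L g (a + (L - ρ m a + j))) l N' = S (fun _ => 0) l N' := by
        apply S_congr
        intro j hj
        unfold blk
        rw [ρ_add (by omega), if_neg (by omega)]
      have h2 : S (fun j => blk m L g (a + j)) l (L - ρ m a) = S (fun j => g (ρ m a + j)) l (L - ρ m a) := by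
        apply S_congr
        intro j hj
        unfold blk
        rw [ρ_add (by omega), if_pos (by omega)]
      rw [h1, h2, S_zero, mul_zero, add_zero]
      exact hB _ _ (by omega)

theorem blk_zero (hm : 0 < m) (l : ℕ) (B : ℝ) (hB0 : 0 ≤ B)
    (hB : ∀ a N, a + N ≤ L → ‖S (fun j => g (a + j)) l N‖ ≤ l * B) (N : ℕ) :
    ∀ a, ρ m a = 0 → ‖S (fun j => blk m L g (a + j)) l N‖ ≤ l * B * (N / (2 * m) + 1) := by
  induction N using Nat.strong_induction_on with
  | _ N ih =>
    intro a ha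
    have hl : (0:ℝ) ≤ l := Nat.cast_nonneg _
    have hm' : (0:ℝ) < 2 * m := by positivity
    by_cases hN : N ≤ 2 * m
    · refine (blk_cell l B hB0 hB a N (by omega)).trans ?_
      have h1 : (0:ℝ) ≤ N / (2 * m) := by positivity
      have h2 : 0 ≤ l * B := by positivity
      nlinarith
    · push Not at hN
      obtain ⟨N', rfl⟩ := Nat.exists_eq_add_of_le hN.le
      rw [S_append]
      have h1 := blk_cell (m := m) l B hB0 hB a (2 * m) (by omega)
      have h2 := ih N' (by omega) (a + 2 * m) (by rw [ρ_period]; exact ha)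
      have h3 : (fun j => blk m L g (a + (2 * m + j))) = fun j => blk m L g (a + 2 * m + j) := by
        funext j; rw [add_assoc]
      calc _ ≤ _ := norm_add_le _ _
        _ ≤ l * B + l * B * (N' / (2 * m) + 1) := by
            rw [norm_mul, ζ_pow_norm, one_mul, h3]
            exact add_le_add h1 h2
        _ = l * B * (((2 * m + N' : ℕ) : ℝ) / (2 * m) + 1) := by
            push_cast
            field_simp
            ring

theorem blk_gen (hm : 0 < m) (l : ℕ) (B : ℝ) (hB0 : 0 ≤ B)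
    (hB : ∀ a N, a + N ≤ L → ‖S (fun j => g (a + j)) l N‖ ≤ l * B) (a N : ℕ) :
    ‖S (fun j => blk m L g (a + j)) l N‖ ≤ l * B * (N / (2 * m) + 2) := by
  have hl : (0:ℝ) ≤ l := Nat.cast_nonneg _
  have hm' : (0:ℝ) < 2 * m := by positivity
  have h2 : 0 ≤ l * B := by positivity
  by_cases hN : ρ m a + N ≤ 2 * m
  · refine (blk_cell l B hB0 hB a N hN).trans ?_
    have h1 : (0:ℝ) ≤ N / (2 * m) := by positivity
    nlinarith
  · push Not at hN
    have hlt := ρ_lt hm a
    obtain ⟨N', rfl⟩ := Nat.exists_eq_add_of_le (show 2 * m - ρ m a ≤ N by omega)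
    rw [S_append]
    have h1 := blk_cell (m := m) l B hB0 hB a (2 * m - ρ m a) (by omega)
    have h4 := blk_zero hm l B hB0 hB N' (a + (2 * m - ρ m a)) (ρ_next hm a)
    have h3 : (fun j => blk m L g (a + (2 * m - ρ m a + j)))
        = fun j => blk m L g (a + (2 * m - ρ m a) + j) := by
      funext j; rw [add_assoc]
    have h5 : (N' : ℝ) / (2 * m) ≤ ((2 * m - ρ m a + N' : ℕ) : ℝ) / (2 * m) := by
      apply div_le_div_of_nonneg_right _ hm'.le
      push_cast
      have : (0:ℝ) ≤ ((2 * m - ρ m a : ℕ) : ℝ) := Nat.cast_nonneg _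
      linarith
    calc _ ≤ _ := norm_add_le _ _
      _ ≤ l * B + l * B * (N' / (2 * m) + 1) := by
          rw [norm_mul, ζ_pow_norm, one_mul, h3]
          exact add_le_add h1 h4
      _ ≤ l * B * (((2 * m - ρ m a + N' : ℕ) : ℝ) / (2 * m) + 2) := by nlinarith

theorem blk_long (hL : 1 ≤ L) (hLm : L ≤ m) (l : ℕ) (ε : ℝ) (hε : 0 ≤ ε)
    (hB : ∀ a N, a + N ≤ L → ‖S (fun j => g (a + j)) l N‖ ≤ l * (ε * L / 3)) (a N : ℕ) (hN : L ≤ N) :
    ‖S (fun j => blk m L g (a + j)) l N‖ ≤ ε * (l * N) := by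
  have h1 := blk_gen (m := m) (by omega) l (ε * L / 3) (by positivity) hB a N
  refine h1.trans ?_
  have hl : (0:ℝ) ≤ l := Nat.cast_nonneg _
  have hL' : (1:ℝ) ≤ L := by exact_mod_cast hL
  have hm' : (L:ℝ) ≤ m := by exact_mod_cast hLm
  have hN' : (L:ℝ) ≤ N := by exact_mod_cast hN
  have h2 : (N:ℝ) / (2 * m) ≤ N / L := by
    apply div_le_div_of_nonneg_left (by positivity) (by positivity)
    linarith
  have h3 : (1:ℝ) ≤ N / L := by rw [le_div_iff₀ (by positivity)]; linarith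
  have h4 : (N:ℝ) / (2 * m) + 2 ≤ 3 * (N / L) := by linarith
  calc l * (ε * L / 3) * (N / (2 * m) + 2) ≤ l * (ε * L / 3) * (3 * (N / L)) := by gcongr
    _ = ε * (l * N) := by field_simp

theorem blk_safe (hL : 1 ≤ L) (hLm : L ≤ m) (l : ℕ) (ε : ℝ) (hε : 0 ≤ ε)
    (hB : ∀ a N, a + N ≤ L → ‖S (fun j => g (a + j)) l N‖ ≤ l * (ε * L / 3)) (a : ℕ)
    (h1 : L ≤ ρ m a) (h2 : ρ m a + L ≤ 2 * m) (N : ℕ) :
    ‖S (fun j => blk m L g (a + j)) l N‖ ≤ ε * (l * N) := by
  by_cases hN : L ≤ N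
  · exact blk_long hL hLm l ε hε hB a N hN
  · have : S (fun j => blk m L g (a + j)) l N = S (fun _ => 0) l N := by
      apply S_congr
      intro j hj
      unfold blk
      rw [ρ_add (by omega), if_neg (by omega)]
    rw [this, S_zero, norm_zero]
    positivity

end block

end Pool.Agent.TH232.Fhc
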