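import Pool.Agent.TH232.Fhc.Basic

set_option autoImplicit false
open Filter Topology

namespace Pool.Agent.TH232.Fhc

/-- unit vectors -/
noncomputable def un (i : ℕ) : Lb :=
  BoundedContinuousFunction.ofNormedAddCommGroupDiscrete (fun j => if j = i then 1 else 0) 1
    (fun j => by split_ifs <;> simp)

theorem un_apply (i j : ℕ) : un i j = if j = i then 1 else 0 := rfl

theorem c00_eq_sum {x : Lb} {M : ℕ} (hM : ∀ j, M ≤ j → x j = 0) :
    x = ∑ i ∈ Finset.range M, x i • un i := by
  ext j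
  rw [BoundedContinuousFunction.sum_apply]
  have : ∀ i, (x i • un i) j = if j = i then x i else 0 := by
    intro i
    show x i • un i j = _
    rw [un_apply]
    split_ifs <;> simp
  simp only [this]
  rw [Finset.sum_ite_eq]
  split_ifs with h
  · rfl
  · exact hM j (by simpa using h)

theorem sep : TopologicalSpace.IsSeparable (X : Set E) := by
  have h1 : TopologicalSpace.IsSeparable
      ((Submodule.span ℂ (Set.range fun i => V (un i)) : Submodule ℂ E) : Set E) :=
    (Set.countable_range _).isSeparable.span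
  have h2 : ((c00.map (V : Lb →ₗ[ℂ] E) : Submodule ℂ E) : Set E) ⊆
      ((Submodule.span ℂ (Set.range fun i => V (un i)) : Submodule ℂ E) : Set E) := by
    rintro _ ⟨x, ⟨M, hM⟩, rfl⟩
    rw [c00_eq_sum hM]
    simp only [map_sum, map_smul]
    refine Submodule.sum_mem _ fun i _ => Submodule.smul_mem _ _ (Submodule.subset_span ⟨i, rfl⟩)
  exact (h1.mono h2).closure

instance : TopologicalSpace.SeparableSpace X := sep.separableSpace

/-- finitely supported vectors are dense -/
theorem dense00 : Dense {f : X | ∃ x : Lb, x ∈ c00 ∧ V x = (f : E)} := by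
  intro f
  rw [Metric.mem_closure_iff]
  intro ε hε
  have hf : (f : E) ∈ closure ((c00.map (V : Lb →ₗ[ℂ] E) : Submodule ℂ E) : Set E) := f.2
  rw [Metric.mem_closure_iff] at hf
  obtain ⟨_, ⟨x, hx, rfl⟩, h⟩ := hf ε hε
  exact ⟨⟨V x, V_mem_X hx⟩, ⟨x, hx, rfl⟩, h⟩

/-- `f (0,l)` does not depend on `l` on `X` -/
theorem X_zero (f : X) (l : ℕ) : (f : E) (0, l) * (((l : ℂ) + 1)) = (f : E) (0, 0) := by
  have hcl : IsClosed {f : E | f (0, l) * (((l : ℂ) + 1)) = f (0, 0)} := by
    refine isClosed_eq ?_ ?_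
    · exact (BoundedContinuousFunction.evalCLM ℂ ((0, l) : ℕ × ℕ)).continuous.mul continuous_const
    · exact (BoundedContinuousFunction.evalCLM ℂ ((0, 0) : ℕ × ℕ)).continuous
  have hs : ((c00.map (V : Lb →ₗ[ℂ] E) : Submodule ℂ E) : Set E) ⊆
      {f : E | f (0, l) * (((l : ℂ) + 1)) = f (0, 0)} := by
    rintro _ ⟨x, hx, rfl⟩
    show (V x) (0, l) * _ = (V x) (0, 0)
    rw [V_apply, V_apply]
    have h2 : ((l : ℂ) + 1) ≠ 0 := by
      have : ((l + 1 : ℕ) : ℂ) ≠ 0 := Nat.cast_ne_zero.2 (by omega)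
      push_cast at this; exact this
    simp only [pre, S]
    simp
    field_simp
  exact hcl.closure_subset_iff.2 hs f.2

/-- the zeroth coordinate -/
noncomputable def e0 : X →L[ℂ] ℂ :=
  (BoundedContinuousFunction.evalCLM ℂ ((0, 0) : ℕ × ℕ)).comp X.subtypeL

theorem e0_apply (f : X) : e0 f = (f : E) (0, 0) := rfl

/-- reconstruction of the averages from the coordinates -/
theorem X_coord (N : ℕ) (f : X) (l : ℕ) :
    (f : E) (N, l) * (((l : ℂ) + 1) * ((N : ℂ) + 1)) = S (fun j => e0 ((T ^ j) f)) (l + 1) (N + 1) := by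
  induction N generalizing f with
  | zero =>
    have := X_zero f l
    simp only [S, zero_add, Finset.range_one, Finset.sum_singleton, zero_mul, pow_zero, mul_one]
    have h0 : e0 ((1 : X →L[ℂ] X) f) = (f : E) (0, 0) := rfl
    rw [h0, ← this]
    simp
  | succ N ih =>
    have h1 := ih (T f)
    have h2 : ∀ j, (T ^ j) (T f) = (T ^ (j + 1)) f := by
      intro j
      rw [pow_succ]
      rfl
    simp only [h2] at h1
    rw [S_shift (fun j => e0 ((T ^ j) f))] at h1
    rw [T_coe, TE_apply] at h1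
    unfold TEf at h1
    simp only at h1
    have h5 : ζ ^ (l + 1) ≠ 0 := pow_ne_zero _ ζ_ne
    have h3 : ((N : ℂ) + 1) ≠ 0 := by
      have : ((N + 1 : ℕ) : ℂ) ≠ 0 := Nat.cast_ne_zero.2 (by omega)
      push_cast at this; exact this
    have h6 : (((N : ℂ) + 2) * (f : E) (N + 1, l) - (f : E) (0, l)) * ((l : ℂ) + 1) =
        S (fun j => e0 ((T ^ j) f)) (l + 1) (N + 1 + 1) - e0 ((T ^ 0) f) := by
      field_simp at h1
      exact h1
    have h7 := X_zero f l
    have h8 : e0 ((T ^ 0) f) = (f : E) (0, 0) := rfl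
    rw [h8] at h6
    simp only [Nat.cast_add, Nat.cast_one]
    linear_combination h6 + h7

/-- membership in `X` -/
theorem V_mem {x : Lb} (h : ∀ ε : ℝ, 0 < ε → ∃ M : ℕ, ∀ N, M ≤ N → ∀ l, 1 ≤ l →
    ‖S x l N‖ ≤ ε * (l * N)) : V x ∈ X := by
  show V x ∈ closure ((c00.map (V : Lb →ₗ[ℂ] E) : Submodule ℂ E) : Set E)
  rw [Metric.mem_closure_iff]
  intro ε hε
  obtain ⟨M, hM⟩ := h (ε / 4) (by positivity)
  let y : Lb := BoundedContinuousFunction.ofNormedAddCommGroupDiscrete (fun j => if j < M then x j else 0)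
    ‖x‖ (fun j => by
      split_ifs
      · exact x.norm_coe_le_norm j
      · simp)
  have hy : ∀ j, y j = if j < M then x j else 0 := fun j => rfl
  refine ⟨V y, ⟨y, ⟨M, fun j hj => by rw [hy, if_neg (by omega)]⟩, rfl⟩, ?_⟩
  rw [dist_eq_norm, ← map_sub]
  refine lt_of_le_of_lt (V_norm_le _ (ε / 2) (by positivity) fun l N hl hN => ?_) (by linarith)
  have e1 : ((x - y : Lb) : ℕ → ℂ) = fun j => x j - y j := rfl
  rw [e1, S_sub]
  by_cases hNM : N ≤ M
  · have : S y l N = S x l N := by
      unfold S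
      refine Finset.sum_congr rfl fun j hj => ?_
      rw [Finset.mem_range] at hj
      rw [hy, if_pos (by omega)]
    rw [this, sub_self, norm_zero]
    positivity
  · have h1 : S y l N = S x l M := by
      unfold S
      rw [← Finset.sum_subset (Finset.range_mono (show M ≤ N by omega))]
      · refine Finset.sum_congr rfl fun j hj => ?_
        rw [Finset.mem_range] at hj
        rw [hy, if_pos hj]
      · intro j _ hj
        rw [Finset.mem_range] at hj
        rw [hy, if_neg hj, zero_mul]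
    rw [h1]
    have h2 := hM N (by omega) l hl
    have h3 := hM M le_rfl l hl
    have h4 : (M : ℝ) ≤ N := by exact_mod_cast (by omega : M ≤ N)
    have h5 : (0:ℝ) ≤ l := Nat.cast_nonneg _
    calc ‖S x l N - S x l M‖ ≤ ‖S x l N‖ + ‖S x l M‖ := norm_sub_le _ _
      _ ≤ ε / 4 * (l * N) + ε / 4 * (l * M) := add_le_add h2 h3
      _ ≤ ε / 4 * (l * N) + ε / 4 * (l * N) := by gcongr
      _ = ε / 2 * (l * N) := by ring

end Pool.Agent.TH232.Fhc
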